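import Pool.Agent.Lib.HS76.Diag

/-! Project ck9: inequalities for positive numbers. -/

open scoped Topology
open Finset Filter

noncomputable section

namespace Pool.Agent.Lib.CK9

/-- The defect, in terms of the product, the sum and the sum of the inverses. -/
def dd (n : ℕ) (f σ τ : ℝ) : ℝ := τ * (τ - n) / n + f * (σ - n)

theorem core {F t a b K : ℝ} (ht : 0 < t) (ha : t ≤ a) (hb : t⁻¹ ≤ b) (hF : 0 < F)
    (h1 : 1 ≤ t → F ≤ 1) (h2 : t ≤ 1 → 1 ≤ F) (h3 : t ≤ 2 → 1 ≤ K * F) (hK : 0 ≤ K) :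
    0 ≤ a * (a - 1) + F * (b - 1) ∧ (a * (a - 1) + F * (b - 1) < 1 / 16 →
      a + b - 2 ≤ (4 + K) * (a * (a - 1) + F * (b - 1))) := by
  set s := t⁻¹ with hs
  have e : t * s = 1 := mul_inv_cancel₀ ht.ne'
  have s0 : 0 < s := inv_pos.2 ht
  by_cases h : t < 1 / 2
  · have s2 : 2 < s := by nlinarith
    have F1 := h2 (by linarith)
    have : 3 / 4 ≤ a * (a - 1) + F * (b - 1) := by nlinarith [sq_nonneg (a - 1 / 2)]
    exact ⟨by linarith, fun k => by linarith⟩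
  rw [not_lt] at h
  have d : a * (a - 1) + F * (b - 1) =
      (a - t) * (a + t - 1) + F * (b - s) + (t - 1) * (t - F * s) := by
    linear_combination (F : ℝ) * e
  have p1 : 0 ≤ (a - t) * (a + t - 1) := mul_nonneg (by linarith) (by linarith)
  have p2 : 0 ≤ F * (b - s) := mul_nonneg hF.le (by linarith)
  have p3 : (t - 1) ^ 2 ≤ (t - 1) * (t - F * s) := by
    rcases le_total 1 t with k | k
    · have : s ≤ 1 := by nlinarith
      have : F * s ≤ 1 := by nlinarith [h1 k]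
      nlinarith
    · have : 1 ≤ s := by nlinarith
      have : 1 ≤ F * s := by nlinarith [h2 k]
      nlinarith
  have p4 := sq_nonneg (t - 1)
  refine ⟨by linarith, fun k => ?_⟩
  rw [d] at k ⊢
  have t1 : 3 / 4 ≤ t := by nlinarith
  have t2 : t ≤ 2 := by nlinarith
  have q1 : a - t ≤ 2 * ((a - t) * (a + t - 1)) := by nlinarith
  have q2 : b - s ≤ K * (F * (b - s)) := by nlinarith [h3 t2]
  have q3 : t + s - 2 ≤ 2 * (t - 1) ^ 2 := by
    have : s ≤ 2 := by nlinarith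
    have e2 : t + s - 2 = s * (t - 1) ^ 2 := by linear_combination (2 - t) * e
    nlinarith
  nlinarith [mul_nonneg hK p1, mul_nonneg hK (p4.trans p3)]

variable {n : ℕ}

theorem means (hn : 0 < n) {μ : Fin n → ℝ} (hμ : ∀ i, 0 < μ i) :
    ∃ t : ℝ, 0 < t ∧ ∏ i, μ i = (t ^ n)⁻¹ ∧ n * t ≤ ∑ i, (μ i)⁻¹ ∧ n * t⁻¹ ≤ ∑ i, μ i := by
  have n0 : (n : ℝ) ≠ 0 := Nat.cast_ne_zero.2 hn.ne'
  set L := ∑ i, Real.log (μ i) with hL
  have e : ∀ c : ℝ, ∑ i, (c * (Real.log (μ i) - L / n) + 1) = n := fun c => by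
    rw [sum_add_distrib, ← mul_sum, sum_sub_distrib, ← hL]
    simp only [sum_const, card_univ, Fintype.card_fin, nsmul_eq_mul]
    field_simp
    ring
  refine ⟨Real.exp (-(L / n)), Real.exp_pos _, ?_, ?_, ?_⟩
  · rw [← Real.exp_nat_mul, ← Real.exp_neg, mul_neg, neg_neg, mul_div_cancel₀ _ n0, hL,
      Real.exp_sum]
    exact prod_congr rfl fun i _ => (Real.exp_log (hμ i)).symm
  · rw [← le_div_iff₀ (Real.exp_pos _), sum_div]
    refine (e (-1)).symm.trans_le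
      (sum_le_sum fun i _ => (Real.add_one_le_exp _).trans_eq ?_)
    rw [neg_one_mul, neg_sub, Real.exp_sub, Real.exp_log (hμ i), Real.exp_neg]
    field_simp
  · rw [← div_eq_mul_inv, div_le_iff₀ (Real.exp_pos _), sum_mul]
    refine (e 1).symm.trans_le (sum_le_sum fun i _ => (Real.add_one_le_exp _).trans_eq ?_)
    rw [one_mul, sub_eq_add_neg, Real.exp_add, Real.exp_log (hμ i)]

theorem dd_core (hn : 0 < n) {μ : Fin n → ℝ} (hμ : ∀ i, 0 < μ i) :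
    0 ≤ dd n (∏ i, μ i) (∑ i, μ i) (∑ i, (μ i)⁻¹) ∧
      (dd n (∏ i, μ i) (∑ i, μ i) (∑ i, (μ i)⁻¹) < 1 / 16 →
        ∑ i, (μ i + (μ i)⁻¹ - 2) ≤ (4 + 2 ^ n) * dd n (∏ i, μ i) (∑ i, μ i) (∑ i, (μ i)⁻¹)) := by
  obtain ⟨t, ht, e, h1, h2⟩ := means hn hμ
  have n0 : (0 : ℝ) < n := Nat.cast_pos.2 hn
  have n1 : (1 : ℝ) ≤ n := Nat.one_le_cast.2 hn
  have tn : 0 < t ^ n := pow_pos ht n
  obtain ⟨c1, c2⟩ := core (F := (t ^ n)⁻¹) (a := (∑ i, (μ i)⁻¹) / n) (b := (∑ i, μ i) / n)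
    (K := 2 ^ n) ht ((le_div_iff₀' n0).2 h1) ((le_div_iff₀' n0).2 h2) (inv_pos.2 tn)
    (fun k => inv_le_one_of_one_le₀ (one_le_pow₀ k))
    (fun k => (one_le_inv₀ tn).2 (pow_le_one₀ ht.le k))
    (fun k => by
      rw [← div_eq_mul_inv, one_le_div tn]
      exact pow_le_pow_left₀ ht.le k n) (by positivity)
  have e2 : dd n (∏ i, μ i) (∑ i, μ i) (∑ i, (μ i)⁻¹) = n * ((∑ i, (μ i)⁻¹) / n *
      ((∑ i, (μ i)⁻¹) / n - 1) + (t ^ n)⁻¹ * ((∑ i, μ i) / n - 1)) := by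
    rw [dd, e]
    field_simp
  have e3 : ∑ i, (μ i + (μ i)⁻¹ - 2) = n * ((∑ i, (μ i)⁻¹) / n + (∑ i, μ i) / n - 2) := by
    rw [sum_sub_distrib, sum_add_distrib]
    simp only [sum_const, card_univ, Fintype.card_fin, nsmul_eq_mul]
    field_simp
    ring
  rw [e2, e3]
  refine ⟨mul_nonneg n0.le c1, fun k => ?_⟩
  rw [mul_left_comm]
  exact mul_le_mul_of_nonneg_left (c2 (by nlinarith)) n0.le

/-- A small defect forces all the numbers to be close to one. -/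
theorem near (hn : 0 < n) {p : (Fin n → ℝ) → Prop} (hp : ∀ᶠ μ in 𝓝 (fun _ => 1), p μ) :
    ∃ δ : ℝ, 0 < δ ∧ ∀ μ : Fin n → ℝ, (∀ i, 0 < μ i) →
      dd n (∏ i, μ i) (∑ i, μ i) (∑ i, (μ i)⁻¹) < δ → p μ := by
  obtain ⟨η, hη, h⟩ := Metric.eventually_nhds_iff.1 hp
  have K0 : (0 : ℝ) < 4 + 2 ^ n := by positivity
  refine ⟨min (1 / 16) (min (1 / 4) (η ^ 2 / 2) / (4 + 2 ^ n)), by positivity, fun μ hμ hd => h ?_⟩
  have h1 := (dd_core hn hμ).2 (hd.trans_le (min_le_left _ _))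
  have h2 := (lt_div_iff₀' K0).1 (hd.trans_le (min_le_right _ _))
  refine (dist_pi_lt_iff hη).2 fun i => ?_
  have h3 : ∀ j, μ j * (μ j + (μ j)⁻¹ - 2) = (μ j - 1) ^ 2 := fun j => by
    have := (hμ j).ne'
    field_simp
    ring
  have h4 := single_le_sum (f := fun j => μ j + (μ j)⁻¹ - 2)
    (fun j _ => nonneg_of_mul_nonneg_right ((h3 j).symm ▸ sq_nonneg _) (hμ j)) (mem_univ i)
  have h5 := (h4.trans h1).trans_lt h2
  have h6 := h5.trans_le (min_le_left _ _)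
  have h7 := h5.trans_le (min_le_right _ _)
  have h8 := h3 i
  have h9 := hμ i
  have h10 := inv_pos.2 h9
  have h11 : μ i ≤ 2 := by
    by_contra k
    nlinarith
  rw [Real.dist_eq]
  refine abs_lt_of_sq_lt_sq' ?_ hη.le |> abs_lt.2
  nlinarith

/-- The error in the limit of the identity of Chern and Lu. -/
def er (μ : Fin n → ℝ) : ℝ :=
  |∑ i, (μ i)⁻¹ - n * ∏ i, μ i| + ∑ a, ∑ b, |(μ a)⁻¹ * (μ b)⁻¹ - ∏ i, μ i|

theorem er_le (hn : 0 < n) (C η : ℝ) (hη : 0 < η) : ∃ K : ℝ, 0 < K ∧ ∀ μ : Fin n → ℝ,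
    (∀ i, 0 < μ i) → ∏ i, μ i ≤ C →
      er μ ≤ η + K * dd n (∏ i, μ i) (∑ i, μ i) (∑ i, (μ i)⁻¹) := by
  have c0 : ∀ i, ContinuousAt (fun μ : Fin n → ℝ => (μ i)⁻¹) fun _ => 1 :=
    fun i => (continuousAt_apply i _).inv₀ one_ne_zero
  have c1 : ContinuousAt (fun μ : Fin n → ℝ => ∏ i, μ i) fun _ => 1 :=
    (continuous_finsetProd _ fun i _ => continuous_apply i).continuousAt
  have c2 : ContinuousAt (er (n := n)) fun _ => 1 :=
    ((tendsto_finsetSum _ fun i _ => c0 i).sub (c1.const_mul _)).abs.add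
      (tendsto_finsetSum _ fun a _ => tendsto_finsetSum _ fun b _ =>
        (((c0 a).mul (c0 b)).sub c1).abs)
  obtain ⟨δ, hδ, h⟩ := near hn (c2.eventually (gt_mem_nhds (show er (fun _ => 1) < η by
    simpa [er] using hη)))
  have n1 : (1 : ℝ) ≤ n := Nat.one_le_cast.2 hn
  set A : ℝ := 2 * n + (n ^ 2 + 2 * n ^ 2 * |C|) / δ with hA
  refine ⟨(1 + n ^ 2) * A + (1 + n * |C| + n ^ 2 * |C|) / δ, by positivity, fun μ hμ hC => ?_⟩
  have d0 := (dd_core hn hμ).1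
  by_cases k : dd n (∏ i, μ i) (∑ i, μ i) (∑ i, (μ i)⁻¹) < δ
  · exact (h μ hμ k).le.trans (le_add_of_nonneg_right (by positivity))
  rw [not_lt] at k
  have f0 : 0 < ∏ i, μ i := prod_pos fun i _ => hμ i
  have s0 : 0 ≤ ∑ i, μ i := sum_nonneg fun i _ => (hμ i).le
  have i0 : ∀ i, 0 ≤ (μ i)⁻¹ := fun i => (inv_pos.2 (hμ i)).le
  have i1 : ∀ i, (μ i)⁻¹ ≤ ∑ i, (μ i)⁻¹ := fun i => single_le_sum (fun j _ => i0 j) (mem_univ i)
  have fC := hC.trans (le_abs_self C)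
  rw [er]
  generalize hD : dd n (∏ i, μ i) (∑ i, μ i) (∑ i, (μ i)⁻¹) = D at *
  generalize ∏ i, μ i = f at *
  generalize ∑ i, μ i = σ at *
  generalize ∑ i, (μ i)⁻¹ = τ at *
  have τ0 : 0 ≤ τ := (i0 ⟨0, hn⟩).trans (i1 _)
  have k1 : ∀ c : ℝ, 0 ≤ c → c ≤ c / δ * D := fun c hc => by
    rw [div_mul_eq_mul_div, le_div_iff₀ hδ]
    exact mul_le_mul_of_nonneg_left k hc
  have k2 : τ ^ 2 ≤ A * D := by
    have e : n * D = τ * (τ - n) + n * (f * (σ - n)) := by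
      rw [← hD, dd]
      field_simp
    have := k1 (n ^ 2 + 2 * n ^ 2 * |C|) (by positivity)
    rw [hA, add_mul]
    nlinarith [sq_nonneg (τ - n), mul_nonneg (mul_nonneg (zero_le_one.trans n1) f0.le) s0,
      mul_le_mul_of_nonneg_left fC (sq_nonneg (n : ℝ))]
  have k3 : ∑ a, ∑ b, |(μ a)⁻¹ * (μ b)⁻¹ - f| ≤ n ^ 2 * (τ ^ 2 + |C|) := by
    have := sum_le_card_nsmul univ (fun a => ∑ b, |(μ a)⁻¹ * (μ b)⁻¹ - f|) (n * (τ ^ 2 + |C|))
      fun a _ => by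
        have := sum_le_card_nsmul univ (fun b => |(μ a)⁻¹ * (μ b)⁻¹ - f|) (τ ^ 2 + |C|)
          fun b _ => by
            have := mul_le_mul (i1 a) (i1 b) (i0 b) τ0
            have := mul_nonneg (i0 a) (i0 b)
            rw [abs_le]
            constructor <;> nlinarith [abs_nonneg C]
        simpa only [card_univ, Fintype.card_fin, nsmul_eq_mul] using this
    simp only [card_univ, Fintype.card_fin, nsmul_eq_mul] at this
    linarith
  have k4 : |τ - n * f| ≤ 1 + τ ^ 2 + n * |C| := by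
    have := mul_le_mul_of_nonneg_left fC (zero_le_one.trans n1)
    have := mul_nonneg (zero_le_one.trans n1) f0.le
    rw [abs_le]
    constructor <;> nlinarith [sq_nonneg (τ - 1)]
  have k5 := k1 (1 + n * |C| + n ^ 2 * |C|) (by positivity)
  nlinarith [mul_le_mul_of_nonneg_left k2 (show (0 : ℝ) ≤ 1 + n ^ 2 by positivity)]

end Pool.Agent.Lib.CK9
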