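import Pool.Agent.Lib.HW68.Core
import Pool.Agent.Lib.RB.B_RC1
import Pool.Agent.Lib.GH.B_GT2

/-! Project ck9: the form of type `(1,0)` attached to two Hermitian metrics and its divergence. -/

open scoped Topology ComplexOrder Matrix ContDiff
open Set Filter MeasureTheory

noncomputable section

namespace Pool.Agent.Lib.CK9

open Pool.Agent.Lib.SV (E)
open Pool.Agent.Lib.HS32 Pool.Agent.Lib.HS32.Mf Pool.Agent.Lib.HW68

variable {n : ℕ}

/-- The trace of the symmetrised connection of `h` minus twice the trace of that of `g`. -/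
def al (h g : E n → Mat n) (z : E n) : E n :=
  fun k => (sy (fun j => gam h j z) k).trace - 2 * (gam g k z).trace

/-- The sum of the two scalar curvatures. -/
def sc (h : E n → Mat n) (z : E n) : ℂ := n12 (h z)⁻¹ fun k l => h z * th h k l z

section loc

variable {h g : E n → Mat n} {z : E n}

theorem sm_sg (hh : HS68.Loc h z) (k : Fin n) : SmM (fun w => sy (fun j => gam h j w) k) z :=
  fun i j => (hh.smM_gam k i j).add (hh.smM_gam j i k)

theorem sm_al (hh : HS68.Loc h z) (hg : HS68.Loc g z) (k : Fin n) :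
    ContDiffAt ℝ ∞ (fun w => al h g w k) z :=
  (sm_sg hh k).trace.sub (contDiffAt_const.mul (hg.smM_gam k).trace)

theorem dzb_al (hh : HS68.Loc h z) (hg : HS68.Loc g z) :
    ∑ k, ∑ l, (h z)⁻¹ k l * dzb l (fun w => al h g w k) z =
      2 * ((h z)⁻¹ * HS68.ricF g z).trace - sc h z := by
  have a : ∀ k l, dzb l (fun w => al h g w k) z = 2 * HS68.ricF g z l k -
      ((h z)⁻¹ * sy (fun j => h z * th h j l z) k).trace := fun k l => by
    have a2 : dMb l (fun w => sy (fun j => gam h j w) k) z = -sy (fun j => th h j l z) k := by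
      ext i j
      refine (dzb_add ((hh.smM_gam k).diff i j) ((hh.smM_gam j).diff i k)).trans ?_
      simp only [th, sy_apply, Matrix.neg_apply, neg_add, neg_neg]
      rfl
    rw [sy_mul, Matrix.nonsing_inv_mul_cancel_left _ _ hh.det_ne.isUnit, hg.ric_apply, th]
    refine (dzb_sub (cd_diff (sm_sg hh k).trace)
      (cd_diff (contDiffAt_const.mul (hg.smM_gam k).trace))).trans ?_
    rw [dzb_const_mul _ (cd_diff (hg.smM_gam k).trace), dzb_trace (sm_sg hh k),
      dzb_trace (hg.smM_gam k), a2, Matrix.trace_neg, Matrix.trace_neg]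
    ring
  simp only [a, mul_sub, Finset.sum_sub_distrib, sc, n12]
  congr 1
  simp only [Matrix.trace, Matrix.diag_apply, Matrix.mul_apply, Finset.mul_sum]
  exact Finset.sum_congr rfl fun k _ => Finset.sum_congr rfl fun l _ => by ring

theorem div_co (hh : HS68.Loc h z) (l : Fin n) :
    ∑ k, dz k (fun w => (h w).det * (h w)⁻¹ k l) z =
      -((h z).det * ∑ k, al h h z k * (h z)⁻¹ k l) := by
  have a : ∀ k, dz k (fun w => (h w).det * (h w)⁻¹ k l) z = (h z).det *
      ((gam h k z).trace * (h z)⁻¹ k l - ∑ p, gam h k z k p * (h z)⁻¹ p l) := fun k => by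
    have b : dz k (fun w => (h w)⁻¹ k l) z = _ := congrFun (congrFun (hh.dM_inv k) k) l
    rw [dz_mul (cd_diff hh.sm.det) (hh.smM_inv.diff k l), hh.dz_det, b, Matrix.neg_apply,
      Matrix.mul_apply]
    ring
  have b : ∀ k, al h h z k = ∑ p, gam h p z p k - (gam h k z).trace := fun k => by
    simp only [al, Matrix.trace, Matrix.diag_apply, sy_apply, Finset.sum_add_distrib]
    ring
  simp only [a, b, ← Finset.mul_sum, sub_mul, Finset.sum_sub_distrib, Finset.sum_mul]
  rw [Finset.sum_comm (f := fun k p => gam h k z k p * (h z)⁻¹ p l)]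
  ring

theorem dv_al (hh : HS68.Loc h z) (hg : HS68.Loc g z) {ψ : E n → ℂ} (hψ : ContDiffAt ℝ ∞ ψ z)
    {α : E n} (hα : ∀ k, dz k ψ z = ψ z * (al h h z k - α k)) :
    dv (fun w => (h w).det • ψ w • (h w)⁻¹ *ᵥ star (al h g w)) z / (h z).det =
      ψ z * (star (2 * ((h z)⁻¹ * HS68.ricF g z).trace - sc h z) -
        ((h z)⁻¹ * Matrix.vecMulVec (star (al h g z)) α).trace) := by
  have sc' : ∀ k l, ContDiffAt ℝ ∞ (fun w => (h w).det * (h w)⁻¹ k l) z :=
    fun k l => hh.sm.det.mul (hh.smM_inv k l)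
  have s2 : ∀ l, ContDiffAt ℝ ∞ (fun w => ψ w * star (al h g w l)) z :=
    fun l => hψ.mul (cd_star (sm_al hh hg l))
  have b5 : ∀ k, dz k (fun w => ((h w).det • ψ w • (h w)⁻¹ *ᵥ star (al h g w)) k) z =
      ∑ l, (dz k (fun w => (h w).det * (h w)⁻¹ k l) z * (ψ z * star (al h g z l)) +
        (h z).det * (h z)⁻¹ k l * (ψ z * (al h h z k - α k) * star (al h g z l) +
          ψ z * star (dzb k (fun w => al h g w l) z))) := by
    intro k
    have e : (fun w => ((h w).det • ψ w • (h w)⁻¹ *ᵥ star (al h g w)) k) =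
        fun w => ∑ l, (h w).det * (h w)⁻¹ k l * (ψ w * star (al h g w l)) := funext fun w => by
      simp only [Pi.smul_apply, smul_eq_mul, Matrix.mulVec, dotProduct, Finset.mul_sum,
        Pi.star_apply]
      exact Finset.sum_congr rfl fun l _ => by ring
    rw [e, dz_sum (f := fun l w => (h w).det * (h w)⁻¹ k l * (ψ w * star (al h g w l)))
      fun l _ => (cd_diff (sc' k l)).mul (cd_diff (s2 l))]
    refine Finset.sum_congr rfl fun l _ => ?_
    rw [dz_mul (cd_diff (sc' k l)) (cd_diff (s2 l)),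
      dz_mul (cd_diff hψ) (cd_diff (cd_star (sm_al hh hg l))), dz_star (cd_diff (sm_al hh hg l)),
      hα]
  have b7 : ∀ k l, star ((h z)⁻¹ k l) = (h z)⁻¹ l k := fun k l => hh.pos.inv.isHermitian.apply l k
  rw [dv, div_eq_iff hh.det_ne, ← dzb_al hh hg]
  simp only [b5, Finset.sum_add_distrib]
  rw [Finset.sum_comm]
  simp only [← Finset.sum_mul, div_co hh]
  rw [Finset.sum_comm (f := fun k l => (h z).det * (h z)⁻¹ k l * _)]
  simp only [star_sum, star_mul', b7, Matrix.trace, Matrix.diag_apply, Matrix.mul_apply,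
    Matrix.vecMulVec_apply, Pi.star_apply]
  rw [Finset.sum_comm (f := fun k l => (h z)⁻¹ k l * (star (al h g z l) * α k))]
  simp only [Finset.mul_sum, Finset.sum_mul, ← Finset.sum_sub_distrib, ← Finset.sum_neg_distrib,
    ← Finset.sum_add_distrib]
  exact Finset.sum_congr rfl fun l _ => Finset.sum_congr rfl fun k _ => by ring

end loc

variable {M : Mf n} {h g g' : M.Fam (Mat n)}

theorem al_cmp (hh : M.Met h) (hg : M.Met g) :
    M.Ov fun e e' x => al (h e') (g e') (e' x) = al (h e) (g e) (e x) ᵥ* M.J e e' x := by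
  intro e he e' he' x hx hx'
  obtain ⟨a1, a2, -, -, -⟩ := (mTR n M).2.1 e he e' he' x hx hx'
  have a3 : (e ∘ e'.symm) (e' x) = e x := by rw [Function.comp, e'.left_inv hx']
  have a4 : ∀ {G : M.Fam (Mat n)}, M.Met G → ∀ k, gam (G e') k (e' x) = (M.J e e' x)⁻¹ *
      ((∑ a, M.J e e' x a k • gam (G e) a (e x)) * M.J e e' x +
        dM k (jm (e ∘ e'.symm)) (e' x)) := fun {G} hG k => by
    have := ((mPB n _ _ (G e) (G e') a1 a2 (a3 ▸ hG.sm.at he hx)
      (BINV.ev_pb mTR hG.toTen he he' hx hx')).2.2 (a3 ▸ hG.det_ne.at he hx)).1 k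
    rw [a3] at this
    rw [this, Matrix.mul_add, Matrix.mul_assoc]
    rfl
  have a5 := (mCHN n _ _ a1).2.2.1
  funext k
  simp only [al, a4 hh, a4 hg, Matrix.vecMul, dotProduct]
  rw [sy_mul, sy_add, sy_pb, sy_symm fun i j k => a5 i j k]
  simp only [Matrix.mul_add, Matrix.trace_add, ← Matrix.mul_assoc, BINV.trace_conj a2]
  simp only [Matrix.trace_sum, Matrix.trace_smul, smul_eq_mul, sub_mul, Finset.sum_sub_distrib,
    Finset.mul_sum, mul_add]
  have e1 : ∀ u : Fin n → ℂ, ∑ a, M.J e e' x a k * u a = ∑ a, u a * M.J e e' x a k :=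
    fun u => Finset.sum_congr rfl fun _ _ => mul_comm _ _
  have e2 : ∀ u : Fin n → ℂ, ∑ a, 2 * (M.J e e' x a k * u a) = ∑ a, 2 * u a * M.J e e' x a k :=
    fun u => Finset.sum_congr rfl fun _ _ => by ring
  rw [e1, e2]
  ring

variable (M) in
/-- The product of two of the forms. -/
def ot (h g g' : M.Fam (Mat n)) : M.Fam (Mat n) :=
  fun e z => Matrix.vecMulVec (star (al (h e) (g' e) z)) (al (h e) (g e) z)

theorem ten_ot (hh : M.Met h) (hg : M.Met g) (hg' : M.Met g') : M.Ten (ot M h g g') := by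
  refine ⟨fun e he z hz i j => ?_, fun e he e' he' x hx hx' => ?_⟩
  · exact (cd_star (sm_al (HS68.met_loc hh he hz) (HS68.met_loc hg' he hz) i)).mul
      (sm_al (HS68.met_loc hh he hz) (HS68.met_loc hg he hz) j)
  · simp only [ot]
    rw [al_cmp hh hg e he e' he' x hx hx', al_cmp hh hg' e he e' he' x hx hx',
      Matrix.star_vecMul, Matrix.mul_vecMulVec, Matrix.vecMulVec_mul]

theorem vec_al (hh : M.Met h) (hg : M.Met g) {ψ : M.X → ℝ} (hψ : M.Sm ψ) :
    M.Vec fun e z => M.lc ψ e z • (h e z)⁻¹ *ᵥ star (al (h e) (g e) z) := by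
  refine ⟨fun e he z hz => ?_, fun e he e' he' x hx hx' => ?_⟩
  · have l1 := HS68.met_loc hh he hz
    exact (hψ.lc e he z hz).smul (l1.smM_inv.mulVec
      (contDiffAt_pi.2 fun l => cd_star (sm_al l1 (HS68.met_loc hg he hz) l)))
  · obtain ⟨-, a2, -, -, -⟩ := (mTR n M).2.1 e he e' he' x hx hx'
    have a7 : h e' (e' x) = _ := hh.cmp e he e' he' x hx hx'
    rw [al_cmp hh hg e he e' he' x hx hx', Matrix.star_vecMul, a7, Matrix.mul_inv_rev,
      Matrix.mul_inv_rev, Matrix.mulVec_smul, Matrix.mulVec_mulVec, Matrix.mulVec_mulVec,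
      Matrix.mul_nonsing_inv_cancel_left _ _ a2.isUnit,
      Matrix.nonsing_inv_mul_cancel_right _ _ (BINV.ct_det a2).isUnit, lc, lc, e.left_inv hx,
      e'.left_inv hx']

theorem dz_dq (hh : M.Met h) (hg : M.Met g) : M.All fun e z => ∀ k, dz k (M.lc (M.dq h g) e) z =
    M.lc (M.dq h g) e z / 2 * (al (h e) (h e) z k - al (h e) (g e) z k) := fun e he z hz k => by
  have l1 := HS68.met_loc hh he hz
  have l2 := HS68.met_loc hg he hz
  have a := (mINV n M h hh).2.1 g hg.toForm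
  have b : M.lc (M.dq h g) e =ᶠ[𝓝 z] fun w => (g e w).det * ((h e w).det)⁻¹ :=
    (a.ev he hz).mono fun w hw => hw.2.1
  rw [dz_congr b, b.self_of_nhds, dz_mul (cd_diff l2.sm.det) ((cd_diff l1.sm.det).fun_inv l1.det_ne),
    dz_inv (cd_diff l1.sm.det) l1.det_ne, l1.dz_det, l2.dz_det, al, al]
  have := l1.det_ne
  field_simp
  ring

/-- The integrated identity. -/
theorem int_al [M.Cpt] (hh : M.Met h) (hg : M.Met g) (hg' : M.Met g') {m : ℝ}
    (hm : M.All fun e z => (sc (h e) z).re = m) :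
    ∫ x, M.dq h g x ^ 2 * (2 * M.tr h (M.ric g') x - m - M.tr h (ot M h g g') x) ∂M.mu h = 0 := by
  obtain ⟨d1, d2, -⟩ := mDIV n M h hh
  obtain ⟨j1, -⟩ := mINV n M h hh
  have sf := (j1 g hg.toTen).2.2.2.1
  obtain ⟨i1, i2, i3⟩ := d2 _ (d1 _ (vec_al hh hg' (sf.pow 2)))
  obtain ⟨-, -, -, -, m2, -⟩ := mMU n M h hh
  have e3 := (mHES n M).2.2.2.2.2.2.2.2.1 g' hg'
  rw [← Complex.zero_re, ← i3 ‹_›]
  refine Eq.trans (integral_congr_ae (Eventually.of_forall fun x => ?_))
    (integral_re (m2 ℂ _ i2.continuous))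
  have he := ch_mem x
  have hz := ch_tgt x
  have a : ∀ k, dz k (M.lc (fun y => M.dq h g y ^ 2) (M.ch x)) (M.ch x x) =
      M.lc (fun y => M.dq h g y ^ 2) (M.ch x) (M.ch x x) *
        (al (h (M.ch x)) (h (M.ch x)) (M.ch x x) k - al (h (M.ch x)) (g (M.ch x)) (M.ch x x) k) :=
    fun k => by
      have e : M.lc (fun y => M.dq h g y ^ 2) (M.ch x) =
          fun w => M.lc (M.dq h g) (M.ch x) w * M.lc (M.dq h g) (M.ch x) w := funext fun w => by
        simp only [lc, sq, Complex.ofReal_mul]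
      have d := cd_diff (sf.lc _ he _ hz)
      rw [e, dz_mul d d, dz_dq hh hg _ he _ hz]
      ring
  have r := dv_al (HS68.met_loc hh he hz) (HS68.met_loc hg' he hz) ((sf.pow 2).lc _ he _ hz) a
  change _ = Complex.re (M.ev _ x)
  rw [ev, r, lc, ch_symm, Complex.re_ofReal_mul, Complex.sub_re, Complex.star_def,
    Complex.conj_re, Complex.sub_re, hm _ he _ hz]
  simp only [Complex.mul_re, Complex.re_ofNat, Complex.im_ofNat, zero_mul, sub_zero]
  rfl

theorem tr_vv (K : Mat n) (a b : E n) :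
    (K * Matrix.vecMulVec (star b) a).trace = star (star a) ⬝ᵥ K *ᵥ star b := by
  rw [Matrix.mul_vecMulVec, Matrix.trace_vecMulVec, star_star, dotProduct_comm]

theorem ot_nonneg (hh : M.Met h) (x : M.X) : 0 ≤ M.tr h (ot M h g g) x := by
  rw [tr, ev, ev, ot, tr_vv]
  exact GH.G48.nq_pos (hh.ev_pos x).inv.posSemidef _

theorem ot_le (hh : M.Met h) (x : M.X) {r : ℝ} (hr : 0 < r) :
    M.tr h (ot M h g g') x ≤ M.tr h (ot M h g g) x / r + r * M.tr h (ot M h g' g') x := by
  refine RB.R95.young (ot_nonneg hh x) (ot_nonneg hh x) hr ?_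
  simp only [tr, ev, ot, tr_vv]
  exact le_trans (sq_le_sq.2 ((Complex.abs_re_le_norm _).trans (le_abs_self _)))
    (HS76.psd_cs (hh.ev_pos x).inv.posSemidef _ _)

theorem gr_dq (hh : M.Met h) (hg : M.Met g) (x : M.X) : M.gr h (M.dq h g) (M.dq h g) x ≤
    M.dq h g x ^ 2 / 2 * (M.tr h (ot M h h h) x + M.tr h (ot M h g g) x) := by
  have d := cd_diff ((((mINV n M h hh).1 g hg.toTen).2.2.2.1).lc.ch x)
  have e : M.ev (M.ds (M.dq h g) (M.dq h g)) x = ((M.dq h g x ^ 2 / 4 : ℝ) : ℂ) •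
      Matrix.vecMulVec (star (al (h (M.ch x)) (h (M.ch x)) (M.ch x x) -
        al (h (M.ch x)) (g (M.ch x)) (M.ch x x))) (al (h (M.ch x)) (h (M.ch x)) (M.ch x x) -
          al (h (M.ch x)) (g (M.ch x)) (M.ch x x)) := by
    ext i j
    have a : dzb i (M.lc (M.dq h g) (M.ch x)) (M.ch x x) = _ := (star_dz_ofReal d).symm
    have b := (dz_dq hh hg).ch x
    change dzb i _ _ * dz j _ _ = _
    erw [a, b, b]
    simp only [lc, ch_symm, Matrix.smul_apply, Matrix.vecMulVec_apply, Pi.star_apply, Pi.sub_apply,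
      star_mul', star_div₀, smul_eq_mul, Complex.star_def, Complex.conj_ofReal, map_ofNat]
    push_cast
    ring
  have k := GH.G48.nq_sub (hh.ev_pos x).inv.posSemidef
    (star (al (h (M.ch x)) (h (M.ch x)) (M.ch x x)))
    (star (al (h (M.ch x)) (g (M.ch x)) (M.ch x x)))
  rw [gr, tr, e, Matrix.mul_smul, Matrix.trace_smul, smul_eq_mul, Complex.re_ofReal_mul, tr_vv,
    star_sub]
  simp only [tr, ev, ot, tr_vv, nq] at k ⊢
  nlinarith [sq_nonneg (M.dq h g x)]

end Pool.Agent.Lib.CK9
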