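import Pool.Agent.Lib.CK9.Pt
import Pool.Agent.Lib.HQ.B_QID
import Pool.Agent.Lib.HQ.B_QVV
import Pool.Agent.Lib.HQ.B_QWY
import Pool.Agent.Lib.RB.B_RCL

/-! Project ck9: the integrated inequalities. -/

open scoped Topology ComplexOrder Matrix ContDiff
open Set Filter MeasureTheory

noncomputable section

namespace Pool.Agent.Lib.CK9

open Pool.Agent.Lib.SV (E)
open Pool.Agent.Lib.HS32 Pool.Agent.Lib.HS32.Mf Pool.Agent.Lib.HW68 Pool.Agent.Lib.GH

variable {n : ℕ} {M : Mf n} {H h G : M.Fam (Mat n)} {ε c : ℝ}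

variable (M) in
/-- Constant holomorphic sectional curvature. -/
def Cst (h : M.Fam (Mat n)) (c : ℝ) : Prop :=
  M.All fun e z => ∀ v, (rm (h e) z v v v v).re = c * nq (h e z) v ^ 2

variable (M) in
/-- A solution of the equation of Aubin. -/
structure So (H G : M.Fam (Mat n)) (ε : ℝ) : Prop where
  kae : M.Kae G
  ric : M.All fun e z => M.ric G e z = (ε • H - G) e z

variable (M) in
/-- The defect. -/
def dD (h G : M.Fam (Mat n)) (x : M.X) : ℝ := dd n (M.dq h G x) (M.tr h G x) (M.tr G h x)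

variable (M) in
/-- The density of energy. -/
def En (h G : M.Fam (Mat n)) (x : M.X) : ℝ :=
  M.dq h G x * dD M h G x + M.dq h G x ^ 2 * M.tr h (ot M h G G) x / 2

variable (M) in
/-- The squared norm of the difference of the connections. -/
def e0 (h G : M.Fam (Mat n)) (x : M.X) : ℝ := (M.ev (fun e => en (G e) (h e) (h e)) x).re

theorem sm_tr {T : M.Fam (Mat n)} (hG : M.Met G) (hT : M.Ten T) : M.Sm (M.tr G T) :=
  ((mINV n M G hG).1 T hT).2.1

theorem sm_dq {T : M.Fam (Mat n)} (hG : M.Met G) (hT : M.Ten T) : M.Sm (M.dq G T) :=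
  ((mINV n M G hG).1 T hT).2.2.2.1

theorem dq_pos (hh : M.Met h) (hG : M.Met G) (x : M.X) : 0 < M.dq h G x :=
  ((mINV n M h hh).2.2.2.2.2.2.2 G hG).1 x

theorem ten_ric (hG : M.Met G) : M.Ten (M.ric G) := ((mHES n M).2.2.2.2.2.2.2.2.1 G hG).toTen

theorem ct_dD (hh : M.Met h) (hG : M.Met G) : Continuous (dD M h G) := by
  have a := (sm_tr hh hG.toTen).continuous
  have b := (sm_tr hG hh.toTen).continuous
  have c := (sm_dq hh hG.toTen).continuous
  unfold dD dd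
  fun_prop

theorem ct_En (hh : M.Met h) (hG : M.Met G) : Continuous (En M h G) := by
  have a := ct_dD hh hG
  have b := (sm_tr hh (ten_ot hh hG hG)).continuous
  have c := (sm_dq hh hG.toTen).continuous
  unfold En
  fun_prop

theorem rep_e0 (hh : M.Met h) (hG : M.Met G) :
    M.Rep (e0 M h G) (fun e z => (en (G e) (h e) (h e) z).re) ∧ Continuous (e0 M h G) := by
  have a := ((mINV n M G hG).2.2.2.2.2.2.2 h hh).2.2.2.1 h hh.toTen
  exact ⟨fun e he z hz => congrArg Complex.re (a.rep e he z hz), (a.sm fun e he z hz =>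
    (HS68.met_loc hG he hz).smooth_en (HS68.met_loc hh he hz) (hh.sm e he z hz)).re.continuous⟩

theorem e0_nonneg (hh : M.Met h) (hG : M.Met G) (x : M.X) : 0 ≤ e0 M h G x :=
  (Complex.nonneg_iff.1 (HS68.Loc.en_nonneg (hG.ev_pos x) (hh.ev_pos x).posSemidef)).1

theorem So.ip (hG : So M H G ε) (hH : M.Met H) (hh : M.Met h) (hε : 0 ≤ ε) (x : M.X) :
    -M.tr G h x ≤ M.ip G h (M.ric G) x := by
  rw [ip_congr (fun _ _ _ _ => rfl) (fun _ _ _ _ => rfl) hG.ric, ip_sub, ip_smul,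
    hG.kae.toMet.ip_self]
  have := (Complex.nonneg_iff.1 (HS76.tr_mul_nonneg (HS76.conj_inv_psd (hG.kae.toMet.ev_pos x)
    (hh.ev_pos x).posSemidef) (hH.ev_pos x).posSemidef)).1
  exact (le_sub_iff_add_le.2 (by rw [neg_add_cancel]; exact mul_nonneg hε this))

theorem So.tr (hG : So M H G ε) (x : M.X) :
    M.tr h (M.ric G) x = ε * M.tr h H x - M.tr h G x := by
  rw [tr_congr (fun _ _ _ _ => rfl) hG.ric, tr_sub, tr_smul]

theorem Cst.sc (hc : Cst M h c) (hh : M.Met h) :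
    M.All fun e z => (sc (h e) z).re = c * (n ^ 2 + n) :=
  fun e he z hz => sc_eq (hh.pos e he z hz) (hc e he z hz)

variable [M.Cpt]

theorem ig {F : Type} [NormedAddCommGroup F] {f : M.X → F} (hh : M.Met h) (hf : Continuous f) :
    Integrable f (M.mu h) := (mMU n M h hh).2.2.2.2.1 F f hf

theorem chg (hh : M.Met h) (hG : M.Met G) (f : M.X → ℝ) :
    ∫ x, f x ∂M.mu G = ∫ x, M.dq h G x * f x ∂M.mu h := ((mMU n M h hh).2.2.2.2.2.2 G hG).2.1 f

theorem fam (hn : 0 < n) (hH : M.Kae H) (hN : M.NefB H 0) (hh : M.Met h) :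
    ∃ C : ℝ, 1 ≤ C ∧ ∀ ε ∈ Ioc (0 : ℝ) 1, ∃ G, So M H G ε ∧ (∀ x, M.dq h G x ≤ C) ∧
      (∀ x, M.dq h G x ≤ C * ∫ x, M.dq h G x ∂M.mu h) ∧
      ∀ s : ℝ, ∀ B, M.Clo B →
        ∫ x, M.dq H (G + B + s • H) x ∂M.mu H = M.vB H B (ε + s) := by
  obtain ⟨C, C1, hC⟩ := HQ.st_QWY HQ.st_QVV n M H 0 hn hH clo_zero hN
  obtain ⟨v1, -, ⟨D, D1, hD⟩, -⟩ := HQ.st_QVV n M H 0 hH clo_zero hN
  obtain ⟨K, K0, hK⟩ := (sm_dq hh hH.toTen).exists_bound
  refine ⟨(1 + K) * C * D, one_le_mul_of_one_le_of_one_le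
    (one_le_mul_of_one_le_of_one_le (by linarith) C1) D1, fun ε hε => ?_⟩
  obtain ⟨w, φ, hw⟩ := hC ε hε
  have gm := hw.sol.kae.toMet
  have V0 : 0 < M.vv (M.gB H 0 ε w) := (mMU n M _ gm).2.2.2.1
  have V1 : M.vv (M.gB H 0 ε w) ≤ D := (v1 ε w ⟨hw.sol.sm, hw.sol.kae⟩).trans_le (hD ε hε).1
  have V2 : ∫ x, M.dq h (M.gB H 0 ε w) x ∂M.mu h = M.vv (M.gB H 0 ε w) := by
    simpa [vv] using (chg hh gm fun _ => 1).symm
  have a : ∀ x, M.dq h (M.gB H 0 ε w) x ≤ (1 + K) * C * M.vv (M.gB H 0 ε w) := fun x => by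
    have a1 := (div_le_iff₀ V0).1 ((hw.up x).trans (mul_le_of_le_one_right (by linarith)
      (Real.exp_le_one_iff.2 (hw.np x))))
    rw [((mINV n M h hh).2.2.2.2.2.2.2 H hH.toMet).2.2.1 _ gm.toForm x, mul_assoc]
    exact mul_le_mul (((le_abs_self _).trans (hK x)).trans (by linarith)) a1
      (dq_pos hH.toMet gm x).le (by linarith)
  refine ⟨_, ⟨hw.sol.kae, fun e he z hz => ?_⟩, fun x => (a x).trans (by gcongr), fun x =>
    (a x).trans ?_, fun s B hB => ?_⟩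
  · have := ((mHES n M).2.2.2.2.2.2.2.2.2 _ H gm hH.toMet).2 e he z hz
    simp only [hw.sol.det, Real.log_exp] at this
    refine this.trans ?_
    simp only [gB, Pi.add_apply, Pi.sub_apply, Pi.zero_apply]
    abel
  · rw [V2]
    exact mul_le_mul_of_nonneg_right (le_mul_of_one_le_right (by positivity) D1) V0.le
  · rw [vB, ← mCOH n M H _ w hH.toMet ((hH.toClo.smul _).add (K88.clo_tw hH hB)) hw.sol.sm]
    refine congrArg (fun T => ∫ x, M.dq H T x ∂M.mu H) ?_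
    rw [gB, add_smul]
    abel

theorem int_one (hn : 0 < n) (hG : So M H G ε) (hH : M.Met H) (hh : M.Met h) (hε : 0 ≤ ε)
    (hc : Cst M h (-(2 / (n + 1)))) :
    ∫ x, M.dq h G x * (M.tr G h x * (M.tr G h x - n) / n) ∂M.mu h ≤ 0 := by
  have gm := hG.kae.toMet
  obtain ⟨q1, q2, q3, -⟩ := HQ.st_QID n M G h hG.kae hh.toForm
  have c1 := (sm_tr gm hh.toTen).continuous
  have c2 := ((mINV n M G gm).2.2.1 h _ hh.toTen (ten_ric gm)).2.1.continuous
  have n0 : (n : ℝ) ≠ 0 := Nat.cast_ne_zero.2 hn.ne'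
  rw [← chg hh gm]
  refine (integral_mono (g := fun x => M.y0 G h x / 2 + M.ip G h (M.ric G) x)
    (ig gm (by fun_prop)) (ig gm ((q1.continuous.div_const 2).add c2)) fun x => ?_).trans ?_
  · have a : 2 / n * M.tr G h x ^ 2 ≤ M.y0 G h x :=
      nf_ge hn (gm.ev_pos x) (HS68.met_loc hh (ch_mem x) (ch_tgt x)) (hc.ch x)
    have b := hG.ip hH hh hε x
    have e : M.tr G h x * (M.tr G h x - n) / n = 2 / n * M.tr G h x ^ 2 / 2 - M.tr G h x := by
      field_simp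
    beta_reduce
    linarith
  · rw [integral_add (ig gm (q1.continuous.div_const 2)) (ig gm c2), integral_div, q3]
    linarith

theorem int_two (hG : So M H G ε) (hH : M.Met H) (hh : M.Met h) (hc : Cst M h c) :
    ∫ x, M.dq h G x ^ 2 * (M.tr h G x + c * (n ^ 2 + n) / 2 + M.tr h (ot M h G G) x / 2) ∂M.mu h =
      ε * ∫ x, M.dq h G x ^ 2 * M.tr h H x ∂M.mu h := by
  have gm := hG.kae.toMet
  have a := int_al hh gm gm (hc.sc hh)
  have c1 := (sm_tr hh gm.toTen).continuous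
  have c2 := (sm_tr hh hH.toTen).continuous
  have c3 := (sm_tr hh (ten_ot hh gm gm)).continuous
  have c4 := (sm_dq hh gm.toTen).continuous
  rw [← integral_const_mul, ← sub_eq_zero, ← integral_sub (ig hh (by fun_prop))
    (ig hh (by fun_prop)), ← mul_zero (-(1 / 2) : ℝ), ← a, ← integral_const_mul]
  refine integral_congr_ae (Eventually.of_forall fun x => ?_)
  simp only [hG.tr]
  ring

theorem int_En (hn : 0 < n) (hG : So M H G ε) (hH : M.Met H) (hh : M.Met h) (hε : 0 ≤ ε)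
    (hc : Cst M h (-(2 / (n + 1)))) :
    ∫ x, En M h G x ∂M.mu h ≤ ε * ∫ x, M.dq h G x ^ 2 * M.tr h H x ∂M.mu h := by
  have gm := hG.kae.toMet
  have c1 := (sm_tr hh gm.toTen).continuous
  have c2 := (sm_tr gm hh.toTen).continuous
  have c3 := (sm_tr hh (ten_ot hh gm gm)).continuous
  have c4 := (sm_dq hh gm.toTen).continuous
  rw [← int_two hG hH hh hc]
  refine le_trans (le_of_eq ?_) (add_le_of_nonpos_left (int_one hn hG hH hh hε hc))
  rw [← integral_add (ig hh (by fun_prop)) (ig hh (by fun_prop))]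
  refine integral_congr_ae (Eventually.of_forall fun x => ?_)
  simp only [En, dD, dd]
  field_simp
  ring

theorem mu_at (hh : M.Met h) : ∃ C : ℝ, 0 ≤ C ∧ ∀ G, M.Met G → ∀ x, ∃ μ : Fin n → ℝ,
    (∀ i, 0 < μ i) ∧ M.dq h G x = ∏ i, μ i ∧ M.tr h G x = ∑ i, μ i ∧ M.tr G h x = ∑ i, (μ i)⁻¹ ∧
    -(M.ev (fun e => qq (G e) (h e)) x).re - M.dq h G x * M.tr h (M.ric h) x ≤
      C * ∑ a, ∑ b, |(μ a)⁻¹ * (μ b)⁻¹ - ∏ i, μ i| := by
  obtain ⟨C, -, hC⟩ := (mBD n M h hh).2.1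
  refine ⟨√C, Real.sqrt_nonneg _, fun G hG x => ?_⟩
  obtain ⟨μ, p, e1, e2, e3, e4⟩ := eig_at (hh.ev_pos x) (hG.ev_pos x)
  refine ⟨μ, p, e1, e2, e3, Eq.trans_le ?_ (e4
    (fun k l => M.ev h x * th (h (M.ch x)) k l (M.ch x x)) _ fun a v ha hv => ?_)⟩
  · have l := HS68.met_loc hh (ch_mem x) (ch_tgt x)
    simp only [Matrix.nonsing_inv_mul_cancel_left _ _ (hh.ev_det x).isUnit, ← l.ric_apply]
    rw [← e1, ev, qq, Complex.neg_re, neg_neg]
    simp only [Matrix.mul_assoc]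
    rfl
  · have := hC.ch x a a v v
    change _ ≤ C * (nq (M.ev h x) a * nq (M.ev h x) a * nq (M.ev h x) v * nq (M.ev h x) v) at this
    rw [ha, hv, Complex.normSq_eq_norm_sq, one_mul, one_mul, one_mul, mul_one] at this
    exact Real.le_sqrt_of_sq_le this

theorem int_e0 (hG : So M H G ε) (hH : M.Met H) (hh : M.Met h) (hε : 0 ≤ ε) :
    ∫ x, M.dq h G x * e0 M h G x ∂M.mu h ≤
      ∫ x, M.dq h G x * (M.tr G h x + (e0 M h G x - M.yT G h x)) ∂M.mu h := by
  have gm := hG.kae.toMet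
  obtain ⟨r1, r2, -⟩ := RB.st_RCL n M G h hG.kae hh
  have c1 := (rep_e0 hh gm).2
  have c2 := r1.continuous
  have c3 := r2.continuous
  have c4 := ((mLAP n M _ _ r1 r1).2.2 G gm).1.continuous
  rw [← chg hh gm, ← chg hh gm, ← zero_add (∫ x, e0 M h G x ∂M.mu G),
    ← neg_zero, ← ((mGRN n M).2 G _ _ hG.kae r1 r1).1, ← integral_neg,
    ← integral_add (ig gm c4.fun_neg) (ig gm c1)]
  refine integral_mono (ig gm (c4.fun_neg.fun_add c1)) (ig gm (by fun_prop)) fun x => ?_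
  have := hG.ip hH hh hε x
  simp only [yT]
  linarith

end Pool.Agent.Lib.CK9
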