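import Pool.Agent.Lib.CK9.Key
import Pool.Agent.Lib.HN.All
import Pool.Agent.Lib.HN.Br

/-! Project ck9: the case of a non-negative constant. -/

open scoped Topology ComplexOrder Matrix ContDiff
open Set Filter MeasureTheory

noncomputable section

namespace Pool.Agent.Lib.CK9

open Pool.Agent.Lib.SV (E)
open Pool.Agent.Lib.HS32 Pool.Agent.Lib.HS32.Mf Pool.Agent.Lib.HW68 Pool.Agent.Lib.GH

open Polynomial in
theorem poly_eq {n : ℕ} (p : ℝ[X]) (hp : p.natDegree ≤ n) {A : ℝ}
    (h : ∀ ε ∈ Ioc (0 : ℝ) 1, |p.eval ε| ≤ A * ε ^ n) : ∃ a : ℝ, ∀ x, p.eval x = a * x ^ n := by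
  by_cases h0 : p = 0
  · exact ⟨0, by simp [h0]⟩
  obtain ⟨q, hq, hn⟩ := exists_eq_pow_rootMultiplicity_mul_and_not_dvd p h0 0
  rw [dvd_iff_isRoot] at hn
  generalize rootMultiplicity 0 p = m at hq
  have q0 : q ≠ 0 := fun k => hn (by simp [k])
  rw [C_0, sub_zero] at hq
  have m1 : n ≤ m := not_lt.1 fun k => hn (by
    have t : Tendsto (fun ε : ℝ => |A| * ε) (𝓝[>] 0) (𝓝 0) := by
      simpa using (continuous_const.mul continuous_id).continuousAt.continuousWithinAt.tendsto
        (f := fun ε : ℝ => |A| * ε) (x := 0)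
    refine abs_nonpos_iff.1 (le_of_tendsto_of_tendsto
      ((q.continuous.abs.tendsto 0).mono_left nhdsWithin_le_nhds) t ?_)
    filter_upwards [Ioc_mem_nhdsGT one_pos] with ε hε
    have k1 := h ε hε
    have k2 := pow_pos hε.1 m
    rw [hq, eval_mul, eval_pow, eval_X, abs_mul, abs_of_pos k2] at k1
    refine le_of_mul_le_mul_left (k1.trans ?_) k2
    rw [mul_left_comm, ← pow_succ]
    exact mul_le_mul (le_abs_self A) (pow_le_pow_of_le_one hε.1.le hε.2 k) (pow_pos hε.1 n).le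
      (abs_nonneg A))
  rw [hq, natDegree_mul (pow_ne_zero _ X_ne_zero) q0, natDegree_X_pow] at hp
  obtain rfl : m = n := by omega
  refine ⟨q.coeff 0, fun x => ?_⟩
  rw [hq, eval_mul, eval_pow, eval_X, mul_comm]
  conv_lhs => rw [eq_C_of_natDegree_eq_zero (show q.natDegree = 0 by omega), eval_C]

theorem det_le {n : ℕ} {G B T : Mat n} (hG : G.PosDef) (hB : B.PosSemidef) (hT : T.PosDef)
    (hl : (T - B).PosSemidef) {u : E n} (u0 : u ≠ 0) (hu : B *ᵥ u = 0) :
    (G + B).det.re ≤ 2 * ((G + T).det.re - T.det.re) := by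
  have p1 := hG.add hT
  have p2 := hG.add_posSemidef hB
  obtain ⟨lam, e⟩ := HS76.eig p1 p2.1
  have l1 := (e.le_iff 1).1 (by simpa using hl)
  have l0 := e.pos p2
  have d := HS76.det_add_ge hT hG.posSemidef
  have y := pd_det_re hT
  have r0 := HS76.tr_nonneg hT hG.posSemidef
  obtain ⟨i, hi⟩ : ∃ i, lam i ≤ (T⁻¹ * G).trace.re := by
    by_contra k
    simp only [not_exists, not_le] at k
    have k1 := (Complex.pos_iff.1 (((e.pd (-(T⁻¹ * G).trace.re) 1).2 fun i => by
      linarith [k i]).dotProduct_mulVec_pos u0)).1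
    have k2 := G48.nq_le_tr hT hG.posSemidef u
    have k3 := mul_nonneg r0 (G48.nq_pos hG.posSemidef u)
    simp only [Matrix.add_mulVec, Matrix.smul_mulVec, dotProduct_add, dotProduct_smul, hu,
      smul_eq_mul, Complex.add_re, Complex.re_ofReal_mul, add_zero, nq] at k1 k2 k3
    linarith
  have k : ∏ j, lam j ≤ lam i := by
    rw [← Finset.mul_prod_erase _ _ (Finset.mem_univ i)]
    exact mul_le_of_le_one_right (l0 i).le
      (Finset.prod_le_one (fun j _ => (l0 j).le) fun j _ => l1 j)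
  rw [e.det_eq, Complex.re_mul_ofReal]
  rw [add_comm T] at d
  have k2 : 0 ≤ (G + T).det.re - T.det.re := by nlinarith
  nlinarith [mul_le_mul_of_nonneg_left (k.trans (l1 i)) k2,
    mul_le_mul_of_nonneg_left (k.trans hi) y.le]

variable {n : ℕ} {M : Mf n} [M.Cpt] {H h : M.Fam (Mat n)} {c : ℝ}

theorem nonpos (hn : 0 < n) (hH : M.Kae H) (hN : M.NefB H 0) (hh : M.Met h) (hc : Cst M h c) :
    c ≤ 0 := by
  by_contra k
  rw [not_le] at k
  obtain ⟨C, -, hC⟩ := fam hn hH hN hh
  obtain ⟨K, K0, hK⟩ := (sm_tr hh hH.toTen).exists_bound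
  obtain ⟨-, hf, ho, -⟩ := mMU n M h hh
  have n0 : (0 : ℝ) < n := Nat.cast_pos.2 hn
  have e0 : 0 < min 1 (c * (n ^ 2 + n) / 2 / K) := by positivity
  obtain ⟨G, g, -⟩ := hC _ ⟨e0, min_le_left _ _⟩
  have gm := g.kae.toMet
  have a := int_two g hH.toMet hh hc
  have s1 := ((sm_dq hh gm.toTen).pow 2).mul (((sm_tr hh gm.toTen).add
    (sm_const (c * (n ^ 2 + n) / 2))).add ((sm_tr hh (ten_ot hh gm gm)).div (sm_const 2)
      fun _ => two_ne_zero))
  have s2 := (((sm_dq hh gm.toTen).pow 2).mul (sm_tr hh hH.toTen)).const_mul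
    (min 1 (c * (n ^ 2 + n) / 2 / K))
  rw [← integral_const_mul, ← sub_eq_zero, ← integral_sub (ig hh s1.continuous)
    (ig hh s2.continuous)] at a
  obtain ⟨x⟩ : Nonempty M.X := inferInstance
  have : Nonempty (Fin n) := ⟨⟨0, hn⟩⟩
  have q : ∀ x, 0 < M.dq h G x ^ 2 * (M.tr h G x + c * (n ^ 2 + n) / 2 +
      M.tr h (ot M h G G) x / 2) -
      min 1 (c * (n ^ 2 + n) / 2 / K) * (M.dq h G x ^ 2 * M.tr h H x) := fun x => by
    rw [mul_left_comm, ← mul_sub]
    refine mul_pos (pow_pos (dq_pos hh gm x) 2) ?_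
    have k1 := (le_div_iff₀ K0).1 (min_le_right 1 (c * (n ^ 2 + n) / 2 / K))
    have k2 : 0 < M.tr h G x := HS76.tr_pos (hh.ev_pos x) (gm.ev_pos x)
    linarith [ot_nonneg (g := G) hh x,
      mul_le_mul_of_nonneg_left ((le_abs_self _).trans (hK x)) e0.le]
  exact (integral_pos_of_integrable_nonneg_nonzero (s1.sub s2).continuous
    (ig hh (s1.sub s2).continuous) (fun x => (q x).le) (q x).ne').ne' a

theorem vol_le (hn : 0 < n) (hH : M.Kae H) (hN : M.NefB H 0) (hh : M.Met h) (hc : Cst M h 0) :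
    ∃ A : ℝ, ∀ ε ∈ Ioc (0 : ℝ) 1, |M.vB H 0 ε| ≤ A * ε ^ n := by
  obtain ⟨C, -, hC⟩ := fam hn hH hN hh
  obtain ⟨K, K0, hK⟩ := (sm_tr hh hH.toTen).exists_bound
  obtain ⟨D, -, hD⟩ := mu_at hh
  have hf := (mMU n M h hh).2.1
  have n0 : (0 : ℝ) < n := Nat.cast_pos.2 hn
  refine ⟨(M.mu h).real univ * (2 * (2 * K / n) ^ n), fun ε hε => ?_⟩
  obtain ⟨G, g, -, -, g1⟩ := hC ε hε
  have gm := g.kae.toMet
  have e0 := hε.1
  have v : M.vB H 0 ε = ∫ x, M.dq h G x ∂M.mu h := by
    have := g1 0 0 clo_zero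
    rw [add_zero, zero_smul, add_zero, add_zero] at this
    simpa [this] using (chg hH.toMet gm fun _ => 1).symm.trans (chg hh gm fun _ => 1)
  have a := int_two g hH.toMet hh hc
  have s0 := sm_dq hh gm.toTen
  have s1 := (s0.pow 2).mul (((sm_tr hh gm.toTen).add
    (sm_const ((0 : ℝ) * (n ^ 2 + n) / 2))).add ((sm_tr hh (ten_ot hh gm gm)).div (sm_const 2)
      fun _ => two_ne_zero))
  have s2 := ((s0.pow 2).mul (sm_tr hh hH.toTen)).const_mul ε
  rw [← integral_const_mul, ← sub_eq_zero, ← integral_sub (ig hh s1.continuous)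
    (ig hh s2.continuous)] at a
  set b := (2 * K * ε / n) ^ n with hb
  have b0 : 0 < b := by positivity
  have k := (integral_mono (ig hh ((s0.sub (sm_const (2 * b))).const_mul (K * ε * b)).continuous)
    (ig hh (s1.sub s2).continuous) fun x => by
      obtain ⟨μ, p, e1, e2, -⟩ := hD G gm x
      obtain ⟨t, t0, t1, -, t2⟩ := means hn p
      have f0 := dq_pos hh gm x
      have k1 := mul_le_mul_of_nonneg_left ((le_abs_self _).trans (hK x)) e0.le
      have k2 := ot_nonneg (g := G) hh x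
      have k3 := hh.tr_nonneg gm.nonneg x
      have k4 := mul_pos K0 e0
      beta_reduce
      rw [mul_left_comm ε, ← mul_sub]
      rcases le_total b (M.dq h G x) with k | k
      · have k5 := k
        rw [e1, t1, ← inv_pow, hb, pow_le_pow_iff_left₀ (by positivity) (by positivity) hn.ne',
          div_le_iff₀' n0] at k5
        rw [← e2] at t2
        refine le_trans ?_ (mul_le_mul_of_nonneg_left (b := K * ε) (by linarith) (sq_nonneg _))
        nlinarith [mul_le_mul_of_nonneg_left k (mul_pos k4 f0).le, mul_pos k4 (mul_pos b0 b0)]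
      · refine le_trans ?_ (mul_le_mul_of_nonneg_left (b := -(K * ε)) (by linarith) (sq_nonneg _))
        nlinarith [mul_le_mul_of_nonneg_left k (mul_pos k4 f0).le,
          mul_le_mul_of_nonneg_left k (mul_pos k4 b0).le]).trans_eq a
  rw [integral_const_mul, integral_sub (ig hh s0.continuous) (integrable_const _), integral_const,
    smul_eq_mul] at k
  rw [v, abs_of_nonneg (integral_nonneg fun x => (dq_pos hh gm x).le)]
  refine (sub_nonpos.1 (nonpos_of_mul_nonpos_right k (by positivity))).trans_eq ?_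
  rw [hb, mul_assoc, mul_assoc, mul_assoc, ← mul_pow]
  congr 3
  ring

open Polynomial in
theorem vol_eq (hn : 0 < n) (hH : M.Kae H) (hN : M.NefB H 0) (hh : M.Met h) (hc : Cst M h 0)
    (x : ℝ) : M.vB H 0 x = M.vv H * x ^ n := by
  obtain ⟨A, hA⟩ := vol_le hn hH hN hh hc
  have hχ := K88.clo_tw hH clo_zero
  have hT : ∀ t : ℝ, M.Clo (t • H + (0 - M.ric H)) := fun t => (hH.toClo.smul t).add hχ
  obtain ⟨L, hL, hI⟩ := HS76.interp_mat n
  have pv : ∀ ε : ℝ, (∑ a : Fin (n + 1), C (M.vB H 0 ((a : ℝ) + 1)) * L a).eval ε =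
      M.vB H 0 ε := fun ε => by
    have e1 : ∀ x, M.dq H (ε • H + (0 - M.ric H)) x = ∑ a : Fin (n + 1),
        (L a).eval ε * M.dq H (((a : ℝ) + 1) • H + (0 - M.ric H)) x := fun x =>
      hI (M.ev H x) _ (hH.toMet.ev_pos x) (AllOn.ch hχ.herm x) ε
    conv_rhs => rw [vB]
    simp only [e1]
    rw [integral_finsetSum _ fun a _ =>
      (ig hH.toMet (sm_dq hH.toMet (hT _).toTen).continuous).const_mul _]
    simp only [eval_finsetSum, eval_mul, eval_C, integral_const_mul, vB, mul_comm]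
  obtain ⟨a, ha⟩ := poly_eq _ (natDegree_sum_le_of_forall_le _ _ fun a _ =>
    (natDegree_C_mul_le _ _).trans (hL a)) fun ε hε => (pv ε).symm ▸ hA ε hε
  simp only [pv] at ha
  have c := ((RB.st_RCT n M H H _ 0 0 hH.toMet hH.toTen hχ.toTen ten_zero ten_zero).comp
    (show Continuous fun t : ℝ => ((t, 0, 0) : ℝ × ℝ × ℝ) by fun_prop)).tendsto 0
  simp only [Function.comp_def, zero_smul, add_zero, hH.toMet.dq_self, integral_const,
    smul_eq_mul, mul_one] at c
  rw [ha, vv, tendsto_nhds_unique (c.mono_left (nhdsWithin_le_nhds (s := Ioi 0)))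
    (tendsto_const_nhds (x := a).congr' ?_)]
  filter_upwards [self_mem_nhdsWithin] with t ht
  have e : H + t • (0 - M.ric H) = t • (t⁻¹ • H + (0 - M.ric H)) := by
    rw [smul_add, smul_inv_smul₀ (ne_of_gt ht)]
  simp only [e, dq_smul, integral_const_mul]
  rw [← vB, ha, mul_left_comm, ← mul_pow, mul_inv_cancel₀ (ne_of_gt ht), one_pow, mul_one]

theorem zero (hn : 0 < n) (hH : M.Kae H) (hN : M.NefB H 0) (hh : M.Met h) (hc : Cst M h 0) :
    M.All fun e z => (∀ a b, tors (h e) z a b = 0) ∧ ∀ k l, th (h e) k l z = 0 := by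
  obtain ⟨P, k, hP, hv⟩ := HN.fl1 M hn hH hN hh fun e he z hz v => by
    rw [hc e he z hz, zero_mul]
  obtain ⟨-, a2, a3, -⟩ := RB.aGPRD n M h P k hh hP
  rw [← (HN.st_NVB n M H h _ hH hh a2 a3 hN).2] at hv
  obtain rfl : k = n := le_antisymm hP.le (not_lt.1 fun kn => hv.not_ge (by
    obtain ⟨C, -, hC⟩ := fam hn hH hN hh
    obtain ⟨K, K0, hK, -⟩ := (mBD n M H hH.toMet).1 _ a2.toForm
    have t : Tendsto (fun ε : ℝ => 2 * (M.vv H * (ε + K) ^ n - M.vv H * K ^ n)) (𝓝 0) (𝓝 0) := by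
      simpa using (show Continuous fun ε : ℝ => 2 * (M.vv H * (ε + K) ^ n - M.vv H * K ^ n) by
        fun_prop).tendsto 0
    refine le_of_tendsto_of_tendsto (((K88.vol_cont hH.toMet (K88.clo_tw hH a2).toForm).tendsto
      0).mono_left (nhdsWithin_le_nhds (s := Ioi 0))) (t.mono_left nhdsWithin_le_nhds) ?_
    filter_upwards [Ioc_mem_nhdsGT one_pos] with ε hε
    obtain ⟨G, g, -, -, g1⟩ := hC ε hε
    have g2 := g1 0 _ a2
    have g3 := g1 K 0 clo_zero
    rw [zero_smul, add_zero, add_zero] at g2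
    rw [add_zero, vol_eq hn hH hN hh hc] at g3
    have hf := (mMU n M H hH.toMet).2.1
    have i1 := ig hH.toMet (sm_dq hH.toMet (g.kae.toTen.add (hH.toTen.smul K))).continuous
    rw [← vB, ← g2, ← g3, vv, ← smul_eq_mul (M.mu H |>.real univ), ← integral_const,
      ← integral_sub i1 (integrable_const _), ← integral_const_mul]
    refine integral_mono (ig hH.toMet (sm_dq hH.toMet (g.kae.toTen.add a2.toTen)).continuous)
      ((i1.sub (integrable_const _)).const_mul 2) fun x => ?_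
    obtain ⟨u, u0, hu⟩ := Matrix.exists_mulVec_eq_zero_iff.2 (show (M.ev P x).det = 0 by
      by_contra d
      have e1 : M.ev P x = 1 := ((Matrix.isUnit_iff_isUnit_det _).2 (Ne.isUnit d)).mul_left_cancel
        ((hP.idem.ch x).trans (Matrix.mul_one _).symm)
      have e2 : (1 + (1 : ℝ) • M.ev P x).det = _ := (hP.det 1).ch x
      rw [e1, one_smul, ← two_smul ℂ, Matrix.det_smul, Matrix.det_one, Fintype.card_fin] at e2
      norm_num at e2
      exact kn.ne' (Nat.pow_right_injective le_rfl (by exact_mod_cast e2)))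
    have d := det_le (g.kae.toMet.ev_pos x) (B := M.ev h x * M.ev P x)
      (by simpa [ev] using a3.ch x)
      ((hH.toMet.smul K0).ev_pos x) (hK.ch x) u0
      (by rw [← Matrix.mulVec_mulVec, hu, Matrix.mulVec_zero])
    have q := fun T hT => (((mINV n M H hH.toMet).2.1 T hT).ch x).2.2
    have q1 := q _ (g.kae.toForm.add a2.toForm)
    have q2 := q _ (g.kae.toForm.add (hH.toForm.smul K))
    have q3 := q _ (hH.toForm.smul K)
    rw [ch_symm] at q1 q2 q3
    rw [dq_smul, hH.toMet.dq_self, mul_one] at q3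
    erw [q1, q2, q3] at d
    refine le_of_mul_le_mul_right ?_ (pd_det_re (hH.toMet.ev_pos x))
    exact d.trans_eq (by rw [ev]; ring)))
  intro e he z hz
  have e1 : P e z = 1 := by
    have r := Submodule.eq_top_of_finrank_eq ((HN.B81.rank_eq _ _ (hP.idem e he z hz)
      fun s => hP.det s e he z hz).trans (by simp))
    refine Matrix.toLin'.injective (LinearMap.ext fun v => ?_)
    obtain ⟨w, rfl⟩ := LinearMap.range_eq_top.1 r v
    rw [Matrix.toLin'_apply, Matrix.toLin'_apply, Matrix.mulVec_mulVec, hP.idem e he z hz,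
      Matrix.toLin'_apply, Matrix.one_mulVec]
  exact ⟨fun a b => by simpa only [e1, Matrix.one_mulVec] using hP.t1 e he z hz a b,
    fun a b => by simpa only [e1, Matrix.mul_one] using hP.flat e he z hz a b⟩

end Pool.Agent.Lib.CK9
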