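import Pool.Agent.Lib.CK9.Neg
import Pool.Agent.Lib.CK9.Zero

/-! Project ck9: from the statement to the manifold layer and back. -/

open scoped Topology ComplexOrder Matrix ContDiff Manifold
open Set Filter

noncomputable section

namespace Pool.Agent.Lib.CK9

open Pool.Agent.Lib.SV (E)
open Pool.Agent.Lib.HS32 Pool.Agent.Lib.HS32.Mf Pool.Agent.Lib.GH Pool.Agent.Lib.RB.R32
open Pool.Agent.Lib.HW

variable {n : ℕ}

theorem gam_smul {h : E n → Mat n} {z : E n} (hh : HS68.Loc h z) {s : ℝ} (hs : 0 < s)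
    (k : Fin n) : gam (s • h) k z = gam h k z := by
  have e : (s • h z)⁻¹ = s⁻¹ • (h z)⁻¹ := Matrix.inv_eq_left_inv (by
    rw [Matrix.smul_mul, Matrix.mul_smul, smul_smul, inv_mul_cancel₀ hs.ne', one_smul,
      Matrix.nonsing_inv_mul _ hh.pos.det_pos.ne'.isUnit])
  rw [gam, gam, Pi.smul_apply, e]
  erw [dM_rsmul s hh.sm]
  rw [Matrix.smul_mul, Matrix.mul_smul, smul_smul, inv_mul_cancel₀ hs.ne', one_smul]

theorem tors_zero {M : Mf n} [M.Cpt] {H h : M.Fam (Mat n)} {c : ℝ} (hn : 0 < n) (hH : M.Kae H)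
    (hN : M.NefB H 0) (hh : M.Met h) (hc : Cst M h c) :
    M.All fun e z => ∀ a b, tors (h e) z a b = 0 := by
  rcases (nonpos hn hH hN hh hc).eq_or_lt with rfl | k
  · exact fun e he z hz => (zero hn hH hN hh hc e he z hz).1
  have s0 : 0 < -c * (n + 1) / 2 := by
    have := neg_pos.2 k
    positivity
  have g : M.All fun e z => ∀ k, gam ((-c * (n + 1) / 2) • h e) k z = gam (h e) k z :=
    fun e he z hz => gam_smul (HS68.met_loc hh he hz) s0
  intro e he z hz a b
  rw [← neg hn hH hN (hh.smul s0) (fun e he z hz v => ?_) e he z hz a b]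
  · simp only [tors, Pi.smul_apply, g e he z hz]
  · have t : ∀ k l, th ((-c * (n + 1) / 2) • h e) k l z = th (h e) k l z := fun k l => by
      rw [th, th, dMb_congr ((AllOn.ev g he hz).mono fun w hw => hw k)]
    have r : rm ((-c * (n + 1) / 2) • h e) z v v v v = (-c * (n + 1) / 2) • rm (h e) z v v v v := by
      simp only [rm, t, Pi.smul_apply, Matrix.smul_mul, Matrix.smul_mulVec, dotProduct_smul,
        Finset.smul_sum, mul_smul_comm]
    rw [Pi.smul_apply, r, Complex.smul_re, hc e he z hz, nq, nq, Pi.smul_apply,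
      Matrix.smul_mulVec, dotProduct_smul, Complex.smul_re, smul_eq_mul, smul_eq_mul]
    field_simp

theorem cst_of {M : Mf n} {T : M.Fam (Mat n)} {c : ℝ} (hT : M.Met T)
    (h : ∀ x, ∃ e ∈ M.C, x ∈ e.source ∧
      ∀ v, (rm (T e) (e x) v v v v).re = c * nq (T e (e x)) v ^ 2) : Cst M T c :=
  Mf.allOn_of_source fun e' he' x hx' v => by
    obtain ⟨e, he, hx, h1⟩ := h x
    have t := (mTR n M).2.1 e he e' he' x hx hx'
    have pt : (e ∘ e'.symm) (e' x) = e x := congrArg _ (e'.left_inv hx')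
    rw [((mPB n _ _ (T e) (T e') t.1 t.2.1 (by rw [pt]; exact hT.sm.at he hx)
      (BSUB.ev_cmp mTR hT.toTen he he' hx hx')).2.2
      (by rw [pt]; exact (hT.pos.at he hx).det_pos.ne')).2.2.1, pt, h1,
      show T e' (e' x) = _ from hT.cmp e he e' he' x hx hx', BBD.nq_conj]
    rfl

theorem main (n : ℕ) (X : Type) [TopologicalSpace X] [ChartedSpace (E n) X]
    [IsManifold 𝓘(ℂ, E n) ω X] [CompactSpace X] [T2Space X] [ConnectedSpace X]
    (g h : X → Mat n) (c : ℝ) (hg : Kaehler g) (hK : CanNef g) (hh : Hermitian h)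
    (hc : ∀ x v, curvAt h x v v = c * (star v ⬝ᵥ h x *ᵥ v).re ^ 2) :
    Kaehler h ∧ (c = 0 → ∀ x a v, curvAt h x a v = 0) := by
  rcases Nat.eq_zero_or_pos n with rfl | hn
  · exact ⟨⟨hh, fun _ _ _ => Subsingleton.elim _ _⟩, fun _ _ _ _ => by simp [curvAt, curv]⟩
  let M : Mf n := HS.BBR.mf n X
  have : M.Cpt := ⟨‹T2Space X›, ‹CompactSpace X›, ‹ConnectedSpace X›⟩
  let p : M.X → M.Ch := chartAt (M := X) (E n)
  have hm : ∀ x, p x ∈ M.C := ch_mem (X := X)
  have hs : ∀ x, x ∈ (p x).source := mem_chart_source (M := X) (E n)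
  have hk : M.Met (RB.R32.fam h) := (fam_ok hh).1
  have hH : M.Kae (RB.R32.fam g) := kae hg
  have e1 : ∀ x a v, curvAt h x a v = (rm (RB.R32.fam h (p x)) (p x x) a a v v).re := fun x a v =>
    congrArg Complex.re (rm_curv (hk.sm.at (hm x) (hs x)) (hk.det_ne.at (hm x) (hs x)) a v).symm
  have hN : M.NefB (RB.R32.fam g) 0 := fun ε hε => by
    obtain ⟨w, w1, w2⟩ := nef hg hK ε hε
    refine ⟨w, w1, ?_⟩
    rw [W86.gB_zero]
    exact ⟨((hH.toClo.smul ε).sub ((mHES n M).2.2.2.2.2.2.2.2.1 _ hH.toMet)).add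
      ((mHES n M).1 w w1), w2⟩
  have e0 : ∀ x, RB.R32.fam h (p x) (p x x) = h x := fun x => by
    have := (mTR n M).2.2.1 _ (hm x) x (hs x)
    rw [Mf.J] at this
    simp only [RB.R32.fam, (p x).left_inv (hs x)]
    erw [this]
    simp
  have hC : Cst M (RB.R32.fam h) c :=
    cst_of hk fun x => ⟨p x, hm x, hs x, fun v => by rw [← e1, hc, e0, nq]⟩
  refine ⟨⟨hh, fun x v w => ?_⟩, ?_⟩
  · have k := clM_of (HS68.met_loc hk (hm x) ((p x).map_source (hs x)))
      ((tors_zero hn hH hN hk hC).at (hm x) (hs x))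
    rw [HS.BBR.del_eq, HS.BBR.del_eq]
    ext i
    simp only [Matrix.mulVec, dotProduct, Matrix.sum_apply, Matrix.smul_apply, smul_eq_mul,
      Finset.sum_mul]
    rw [Finset.sum_comm]
    refine Finset.sum_congr rfl fun a _ => Finset.sum_congr rfl fun b _ => ?_
    erw [k i b a]
    exact mul_right_comm _ _ _ |>.trans (congrArg (· * _) (mul_comm _ _)) |>.trans
      (mul_right_comm _ _ _)
  · rintro rfl x a v
    simp [e1, rm, ((zero hn hH hN hk hC).at (hm x) (hs x)).2]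

end Pool.Agent.Lib.CK9
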