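import Pool.Agent.Lib.CK9.Key
import Pool.Agent.Lib.RB.B_RON
import Pool.Agent.Lib.GH.B_GLIM
import Pool.Agent.Lib.GH.B_GME

/-! Project ck9: the case of a negative constant. -/

open scoped Topology ComplexOrder Matrix ContDiff
open Set Filter MeasureTheory

noncomputable section

namespace Pool.Agent.Lib.CK9

open Pool.Agent.Lib.SV (E)
open Pool.Agent.Lib.HS32 Pool.Agent.Lib.HS32.Mf Pool.Agent.Lib.HW68 Pool.Agent.Lib.GH

theorem lim0 {X : Type} [MeasurableSpace X] {μ : Measure X} [IsFiniteMeasure μ]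
    {φ e : ℕ → X → ℝ} {y : ℕ → ℝ} (iφ : ∀ j, Integrable (φ j) μ) (ie : ∀ j, Integrable (e j) μ)
    (he : Tendsto (fun j => ∫ x, e j x ∂μ) atTop (𝓝 0)) (y0 : ∀ j, 0 ≤ y j)
    (y1 : ∀ j, y j ≤ ∫ x, φ j x ∂μ)
    (h : ∀ a : ℝ, 0 < a → ∃ K : ℝ, ∀ j x, φ j x ≤ a + K * e j x) : Tendsto y atTop (𝓝 0) := by
  refine tendsto_order.2 ⟨fun a ha => Eventually.of_forall fun j => ha.trans_le (y0 j),
    fun a ha => ?_⟩
  have m0 : 0 ≤ μ.real univ := measureReal_nonneg
  obtain ⟨K, hK⟩ := h (a / 2 / (μ.real univ + 1)) (by positivity)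
  have t := he.const_mul K
  rw [mul_zero] at t
  filter_upwards [t.eventually (gt_mem_nhds (half_pos ha))] with j hj
  have k := integral_mono (iφ j) ((integrable_const _).add ((ie j).const_mul K)) (hK j)
  simp only [Pi.add_apply] at k
  rw [integral_add (integrable_const _) ((ie j).const_mul K), integral_const, integral_const_mul,
    smul_eq_mul] at k
  have k2 : μ.real univ * (a / 2 / (μ.real univ + 1)) ≤ a / 2 := by
    rw [← mul_div_assoc, div_le_iff₀ (by positivity)]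
    nlinarith
  linarith [y1 j]

variable {n : ℕ} {M : Mf n} [M.Cpt] {H h : M.Fam (Mat n)} {G : ℕ → M.Fam (Mat n)} {C : ℝ}

variable (M) in
/-- The sequence of metrics. -/
structure Sq (h : M.Fam (Mat n)) (G : ℕ → M.Fam (Mat n)) (C : ℝ) : Prop where
  one : 1 ≤ C
  kae : ∀ j, M.Kae (G j)
  up : ∀ j x, M.dq h (G j) x ≤ C
  vol : ∀ j, 1 ≤ C * ∫ x, M.dq h (G j) x ∂M.mu h
  en : Tendsto (fun j => ∫ x, En M h (G j) x ∂M.mu h) atTop (𝓝 0)
  ee : ∀ j, ∫ x, M.dq h (G j) x * e0 M h (G j) x ∂M.mu h ≤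
    ∫ x, M.dq h (G j) x * (M.tr (G j) h x + (e0 M h (G j) x - M.yT (G j) h x)) ∂M.mu h

theorem en_ge (hn : 0 < n) (hh : M.Met h) {g : M.Fam (Mat n)} (hg : M.Met g) (x : M.X) :
    0 ≤ dD M h g x ∧ M.dq h g x * dD M h g x ≤ En M h g x ∧
      M.dq h g x ^ 2 * M.tr h (ot M h g g) x / 2 ≤ En M h g x ∧ 0 ≤ En M h g x := by
  obtain ⟨_, -, k⟩ := mu_at hh
  obtain ⟨μ, p, e1, e2, e3, -⟩ := k g hg x
  have a : 0 ≤ dD M h g x := by
    rw [dD, e1, e2, e3]
    exact (dd_core hn p).1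
  have b := mul_nonneg (dq_pos hh hg x).le a
  have c := mul_nonneg (sq_nonneg (M.dq h g x)) (ot_nonneg (g := g) hh x)
  rw [En]
  exact ⟨a, by linarith, by linarith, by linarith⟩

theorem dD_near (hn : 0 < n) (hh : M.Met h) : ∃ δ : ℝ, 0 < δ ∧ ∀ g, M.Met g → ∀ x,
    dD M h g x < δ → 2 / 3 < M.dq h g x ∧ M.tr h g x < n + 1 := by
  obtain ⟨_, -, k⟩ := mu_at hh
  have c1 : ContinuousAt (fun μ : Fin n → ℝ => ∏ i, μ i) fun _ => 1 :=
    (continuous_finsetProd _ fun i _ => continuous_apply i).continuousAt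
  have c2 : ContinuousAt (fun μ : Fin n → ℝ => ∑ i, μ i) fun _ => 1 :=
    (continuous_finsetSum _ fun i _ => continuous_apply i).continuousAt
  obtain ⟨δ, hδ, h1⟩ := near hn ((c1.eventually (lt_mem_nhds (a := 2 / 3) (by norm_num))).and
    (c2.eventually (gt_mem_nhds (a := (n : ℝ) + 1) (by simp))))
  refine ⟨δ, hδ, fun g hg x hx => ?_⟩
  obtain ⟨μ, p, e1, e2, e3, -⟩ := k g hg x
  rw [dD, e1, e2, e3] at hx
  rw [e1, e2]
  exact h1 μ p hx

theorem seq (hn : 0 < n) (hH : M.Kae H) (hN : M.NefB H 0) (hh : M.Met h)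
    (hc : Cst M h (-(2 / (n + 1)))) : ∃ G C, Sq M h G C := by
  obtain ⟨C, C1, hC⟩ := fam hn hH hN hh
  have p : ∀ j : ℕ, (0 : ℝ) < 1 / (j + 1) := fun j => by positivity
  choose G g1 g2 g3 _ using fun j : ℕ => hC (1 / (j + 1)) ⟨p j, by
    rw [div_le_one (by positivity)]
    linarith [j.cast_nonneg (α := ℝ)]⟩
  have hi := fun f : M.X → ℝ => ig (f := f) hh
  obtain ⟨-, hf, ho, -⟩ := mMU n M h hh
  obtain ⟨K, K0, hK⟩ := (sm_tr hh hH.toTen).exists_bound
  refine ⟨G, C, C1, fun j => (g1 j).kae, g2, fun j => ?_, ?_,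
    fun j => int_e0 (g1 j) hH.toMet hh (p j).le⟩
  · have gm := (g1 j).kae.toMet
    have c1 := (sm_tr gm hh.toTen).continuous
    have c2 := (sm_dq hh gm.toTen).continuous
    have n0 : (0 : ℝ) < n := Nat.cast_pos.2 hn
    obtain ⟨x, hx⟩ : ∃ x, M.tr (G j) h x ≤ n := by
      by_contra k
      simp only [not_exists, not_le] at k
      have q : ∀ x, 0 < M.dq h (G j) x * (M.tr (G j) h x * (M.tr (G j) h x - n) / n) := fun x =>
        mul_pos (dq_pos hh gm x) (div_pos (mul_pos (n0.trans (k x)) (sub_pos.2 (k x))) n0)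
      obtain ⟨x⟩ : Nonempty M.X := inferInstance
      exact (int_one hn (g1 j) hH.toMet hh (p j).le hc).not_gt
        (integral_pos_of_integrable_nonneg_nonzero (by fun_prop) (hi _ (by fun_prop))
          (fun x => (q x).le) (q x).ne')
    refine le_trans ?_ (g3 j x)
    obtain ⟨_, -, k⟩ := mu_at hh
    obtain ⟨μ, q, e1, -, e3, -⟩ := k _ gm x
    obtain ⟨t, t0, t1, t2, -⟩ := means hn q
    rw [e1, t1]
    exact (one_le_inv₀ (pow_pos t0 n)).2 (pow_le_one₀ t0.le
      (le_of_mul_le_mul_left (by linarith) n0))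
  · have t := (tendsto_one_div_add_atTop_nhds_zero_nat (𝕜 := ℝ)).mul_const
      ((M.mu h).real univ * (C ^ 2 * K))
    rw [zero_mul] at t
    refine squeeze_zero (fun j => integral_nonneg fun x =>
      (en_ge hn hh (g1 j).kae.toMet x).2.2.2) (fun j => ?_) t
    refine (int_En hn (g1 j) hH.toMet hh (p j).le hc).trans (mul_le_mul_of_nonneg_left ?_ (p j).le)
    rw [← smul_eq_mul, ← integral_const]
    refine integral_mono (hi _ (((sm_dq hh (g1 j).kae.toTen).continuous.pow 2).mul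
      (sm_tr hh hH.toTen).continuous)) (integrable_const _) fun x => ?_
    exact mul_le_mul (pow_le_pow_left₀ (dq_pos hh (g1 j).kae.toMet x).le (g2 j x) 2)
      ((le_abs_self _).trans (hK x)) (hh.tr_nonneg hH.toMet.nonneg x) (sq_nonneg _)

theorem arith {f C A K Q a r τ σ R S D q p w Y m : ℝ} (f0 : 0 < f) (f1 : f ≤ C) (A0 : 0 ≤ A)
    (K0 : 0 < K) (Q0 : 0 < Q) (a0 : 0 < a) (S0 : 0 ≤ S) (r0 : r = a / (C ^ 2 * Q))
    (h1 : |τ - m * f| + S ≤ a / 2 / (C * (1 + A)) + K * D) (h2 : -R - f * σ ≤ A * S)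
    (h3 : w ≤ q / r + r * p) (p0 : 0 ≤ p) (p1 : p ≤ Q) (y1 : f * D ≤ Y) (y2 : f ^ 2 * q / 2 ≤ Y) :
    f * (τ + -R) - f ^ 2 * (2 * σ - -(2 * m) - w) / 2 ≤ a + ((1 + A) * K + C ^ 2 * Q / a) * Y := by
  have C0 : 0 < C := f0.trans_le f1
  have k1 : τ - m * f + (-R - f * σ) ≤ (1 + A) * (a / 2 / (C * (1 + A)) + K * D) := by
    nlinarith [le_abs_self (τ - m * f), mul_le_mul_of_nonneg_left h1 A0,
      mul_nonneg A0 (abs_nonneg (τ - m * f))]
  have k2 : f * ((1 + A) * (a / 2 / (C * (1 + A)))) ≤ a / 2 := by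
    refine (mul_le_mul_of_nonneg_right f1 (by positivity)).trans_eq ?_
    field_simp
  have k3 : f ^ 2 * (r * p) ≤ a := by
    refine (mul_le_mul (pow_le_pow_left₀ f0.le f1 2) (mul_le_mul_of_nonneg_left p1
      (by rw [r0]; positivity)) (by rw [r0]; positivity) (sq_nonneg _)).trans_eq ?_
    rw [r0]
    field_simp
  have k4 : f ^ 2 * (q / r) / 2 ≤ C ^ 2 * Q / a * Y := by
    refine Eq.trans_le ?_ (mul_le_mul_of_nonneg_left y2 (by positivity))
    rw [r0]
    field_simp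
  have k5 := mul_le_mul_of_nonneg_left y1 (show 0 ≤ (1 + A) * K by positivity)
  nlinarith [mul_le_mul_of_nonneg_left k1 f0.le, mul_le_mul_of_nonneg_left h3 (sq_nonneg f)]

theorem Sq.e00 (hs : Sq M h G C) (hn : 0 < n) (hh : M.Met h) (hc : Cst M h (-(2 / (n + 1)))) :
    Tendsto (fun j => ∫ x, M.dq h (G j) x * e0 M h (G j) x ∂M.mu h) atTop (𝓝 0) := by
  have hf := (mMU n M h hh).2.1
  have gm := fun j => (hs.kae j).toMet
  have c1 : ∀ j, Integrable (fun x => M.dq h (G j) x *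
      (M.tr (G j) h x + (e0 M h (G j) x - M.yT (G j) h x))) (M.mu h) := fun j =>
    ig hh ((sm_dq hh (gm j).toTen).continuous.mul ((sm_tr (gm j) hh.toTen).continuous.add
      ((rep_e0 hh (gm j)).2.sub (RB.st_RCL n M _ h (hs.kae j) hh).2.1.continuous)))
  have c2 : ∀ j, Integrable (fun x => M.dq h (G j) x ^ 2 * (2 * M.tr h (M.ric h) x -
      -(2 / (n + 1)) * (n ^ 2 + n) - M.tr h (ot M h (G j) h) x) / 2) (M.mu h) := fun j =>
    ig hh ((((sm_dq hh (gm j).toTen).pow 2).mul ((((sm_tr hh (ten_ric hh)).const_mul 2).sub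
      (sm_const _)).sub (sm_tr hh (ten_ot hh (gm j) hh)))).continuous.div_const 2)
  refine lim0 (fun j => (c1 j).sub' (c2 j)) (fun j => ig hh (ct_En hh (gm j))) hs.en
    (fun j => integral_nonneg fun x => mul_nonneg (dq_pos hh (gm j) x).le (e0_nonneg hh (gm j) x))
    (fun j => ?_) fun a ha => ?_
  · rw [integral_sub (c1 j) (c2 j), integral_div, int_al hh (gm j) hh (hc.sc hh), zero_div,
      sub_zero]
    exact hs.ee j
  obtain ⟨A, A0, hA⟩ := mu_at hh
  obtain ⟨Q, Q0, hQ⟩ := (sm_tr hh (ten_ot hh hh hh)).exists_bound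
  have C0 : 0 < C := zero_lt_one.trans_le hs.one
  obtain ⟨K, K0, hK⟩ := er_le hn C (a / 2 / (C * (1 + A))) (by positivity)
  refine ⟨(1 + A) * K + C ^ 2 * Q / a, fun j x => ?_⟩
  obtain ⟨μ, p, e1, e2, e3, e4⟩ := hA _ (gm j) x
  obtain ⟨-, d1, d2, -⟩ := en_ge hn hh (gm j) x
  have k1 := hK μ p (e1 ▸ hs.up j x)
  have k2 := ((RB.st_RCL n M _ h (hs.kae j) hh).2.2.2.1.ch x).1
  rw [ch_symm] at k2
  have k3 : e0 M h (G j) x - M.yT (G j) h x = -(M.ev (fun e => qq (G j e) (h e)) x).re := by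
    rw [k2]
    exact sub_add_cancel_left _ _
  have k5 : -(2 / ((n : ℝ) + 1)) * (n ^ 2 + n) = -(2 * n) := by
    field_simp
  rw [er, ← e1, ← e2, ← e3, ← dD] at k1
  rw [← e1] at e4
  rw [k3, k5]
  exact arith (dq_pos hh (gm j) x) (hs.up j x) A0 K0 Q0 ha (by positivity) rfl k1 e4
    (ot_le hh x (by positivity)) (ot_nonneg hh x) ((le_abs_self _).trans (hQ x)) d1 d2

theorem kap_zero {A t : ℝ} (hA : 0 < A) (h : -A < t) : deriv (RB.R95.kap A) t = 0 := by
  have : RB.R95.kap A =ᶠ[𝓝 t] fun _ => 1 :=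
    (lt_mem_nhds h).mono fun y hy => RB.R95.kap_one hA hy.le
  rw [this.deriv_eq, deriv_const]

omit [M.Cpt] in
theorem gr_sub {g : M.Fam (Mat n)} (hg : M.Met g) {u : M.X → ℝ} (hu : M.Sm u) (x : M.X) :
    M.gr g (fun y => u y - 1) (fun y => u y - 1) x = M.gr g u u x := by
  have c : ∀ y, ContDiffAt ℝ ∞ (fun t : ℝ => t - 1) (u y) :=
    fun y => contDiffAt_id.sub contDiffAt_const
  have hs := hu.comp c
  rw [(((mLAP n M u _ hu hs).2.2 g hg).2.2.2.1 _ c x).2,
    (((mLAP n M u _ hu hs).2.2 g hg).2.2.1 x 0).2.2.2.2.2.1,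
    (((mLAP n M u _ hu hu).2.2 g hg).2.2.2.1 _ c x).2, ((hasDerivAt_id' (u x)).sub_const 1).deriv,
    one_mul, one_mul]

theorem Sq.cut (hs : Sq M h G C) (hn : 0 < n) (hH : M.Kae H) (hh : M.Met h) :
    Tendsto (fun j => ∫ x, (1 - RB.R95.kap (1 / 3) (M.dq h (G j) x - 1)) ∂M.mu h) atTop (𝓝 0) := by
  have hf := (mMU n M h hh).2.1
  have hf' := (mMU n M H hH.toMet).2.1
  have gm := fun j => (hs.kae j).toMet
  have s1 := fun j => (sm_dq hh (gm j).toTen).sub (sm_const 1)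
  have s2 := fun j => (s1 j).comp fun y => RB.R95.kap_cd (1 / 3) (M.dq h (G j) y - 1)
  have u0 : ∀ t, 0 ≤ RB.R95.kap (1 / 3) t ∧ RB.R95.kap (1 / 3) t ≤ 1 :=
    fun t => ⟨Real.smoothTransition.nonneg _, Real.smoothTransition.le_one _⟩
  have C0 : 0 < C := zero_lt_one.trans_le hs.one
  obtain ⟨δ, δ0, hδ⟩ := dD_near hn hh
  obtain ⟨L, L0, hL⟩ := RB.R95.kap_der
  obtain ⟨B, B0, hB, -⟩ := (mBD n M H hH.toMet).1 h hh.toForm
  obtain ⟨Q, Q0, hQ⟩ := (sm_tr hh (ten_ot hh hh hh)).exists_bound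
  obtain ⟨P, P0, hP⟩ := (sm_dq hh hH.toTen).exists_bound
  obtain ⟨P', P0', hP'⟩ := (sm_dq hH.toMet hh.toTen).exists_bound
  obtain ⟨T, T0, hT⟩ := G47.mu_le M hH.toMet hh
  have iE := fun j => ig hh (ct_En hh (gm j))
  have sg := fun j => ((mLAP n M _ _ (s2 j) (s2 j)).2.2 H hH.toMet).2.1.continuous.sqrt
  have t := RB.st_RON n M H _ (1 / (2 * C) / C / T) hH s2 (fun j x => u0 _) (by positivity)
    (lim0 (fun j => ig hh ((sm_dq hh hH.toTen).continuous.mul (sg j))) iE hs.en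
      (fun j => integral_nonneg fun x => Real.sqrt_nonneg _)
      (fun j => (chg hh hH.toMet _).le) fun a ha => ?_) ?_
  · have t2 := t.const_mul P'
    rw [mul_zero] at t2
    refine squeeze_zero (fun j => integral_nonneg fun x => sub_nonneg.2 (u0 _).2) (fun j => ?_) t2
    have c := ((sm_const 1).sub (s2 j)).continuous
    rw [chg hH.toMet hh, ← integral_const_mul]
    exact integral_mono (ig hH.toMet ((sm_dq hH.toMet hh.toTen).continuous.mul c))
      ((ig hH.toMet c).const_mul _) fun x => mul_le_mul_of_nonneg_right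
        ((le_abs_self _).trans (hP' x)) (sub_nonneg.2 (u0 _).2)
  · refine ⟨P * ((L / (1 / 3)) ^ 2 * (B * (3 * Q / δ + 1)) / (a / P)), fun j x => ?_⟩
    obtain ⟨d0, d1, d2, d3⟩ := en_ge hn hh (gm j) x
    have k : M.gr H (fun y => RB.R95.kap (1 / 3) (M.dq h (G j) y - 1))
        (fun y => RB.R95.kap (1 / 3) (M.dq h (G j) y - 1)) x ≤
        (L / (1 / 3)) ^ 2 * (B * (3 * Q / δ + 1)) * En M h (G j) x := by
      rw [RB.R95.gr_kap hH.toMet (s1 j), gr_sub hH.toMet (sm_dq hh (gm j).toTen)]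
      by_cases k0 : deriv (RB.R95.kap (1 / 3)) (M.dq h (G j) x - 1) = 0
      · rw [k0, zero_pow two_ne_zero, zero_mul]
        positivity
      have k1 := not_lt.1 fun k => k0 ((hL _ _ (by norm_num)).2 k)
      have k2 := not_lt.1 fun k => k0 (kap_zero (by norm_num) k)
      have k3 : δ ≤ dD M h (G j) x := not_lt.1 fun k => by linarith [(hδ _ (gm j) x k).1]
      have q := (mLAP n M _ _ (sm_dq hh (gm j).toTen) (sm_dq hh (gm j).toTen)).2.2 H hH.toMet
      rw [mul_assoc, mul_assoc]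
      refine mul_le_mul (hL _ _ (by norm_num)).1 ((q.2.2.2.2 h B hh hB x).trans
        (mul_le_mul_of_nonneg_left ((gr_dq hh (gm j) x).trans ?_) B0.le))
        (q.2.2.1 x 0).2.2.2.2.2.2.1 (sq_nonneg _)
      have k4 : Q ≤ 3 * Q / δ * En M h (G j) x := by
        rw [div_mul_eq_mul_div, le_div_iff₀ δ0]
        nlinarith [mul_le_mul (show 1 / 3 ≤ M.dq h (G j) x by linarith) k3 δ0.le
          (dq_pos hh (gm j) x).le]
      have k5 : M.dq h (G j) x ^ 2 / 2 * M.tr h (ot M h h h) x ≤ 1 * Q :=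
        mul_le_mul (by nlinarith) ((le_abs_self _).trans (hQ x)) (ot_nonneg hh x) zero_le_one
      linarith
    have k6 := RB.R95.young (r := a / P) (g := 1) (by positivity) zero_le_one (by positivity)
      ((Real.sq_sqrt (((mLAP n M _ _ (s2 j) (s2 j)).2.2 H hH.toMet).2.2.1 x
        0).2.2.2.2.2.2.1).trans_le (k.trans_eq (mul_one _).symm))
    refine (mul_le_mul ((le_abs_self _).trans (hP x)) k6 (Real.sqrt_nonneg _) P0.le).trans_eq ?_
    field_simp
    ring
  · have t := hs.en.div_const δ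
    rw [zero_div] at t
    filter_upwards [t.eventually (gt_mem_nhds (show (0 : ℝ) < 1 / (2 * C) by positivity))]
      with j hj
    have m : MeasurableSet {x | RB.R95.kap (1 / 3) (M.dq h (G j) x - 1) = 1} :=
      (isClosed_eq (s2 j).continuous continuous_const).measurableSet
    have i1 := (integrable_const (μ := M.mu h) C).indicator m
    have k := integral_mono (ig hh (sm_dq hh (gm j).toTen).continuous)
      (i1.add ((iE j).div_const δ)) fun x => by
        obtain ⟨d0, d1, -, d3⟩ := en_ge hn hh (gm j) x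
        by_cases k : dD M h (G j) x < δ
        · have k7 : x ∈ {x | RB.R95.kap (1 / 3) (M.dq h (G j) x - 1) = 1} :=
            RB.R95.kap_one (by norm_num) (by linarith [(hδ _ (gm j) x k).1])
          rw [Pi.add_apply, indicator_of_mem k7]
          exact (hs.up j x).trans (le_add_of_nonneg_right (by positivity))
        · refine le_add_of_nonneg_of_le (indicator_nonneg (fun _ _ => C0.le) x) ?_
          rw [le_div_iff₀ δ0]
          exact (mul_le_mul_of_nonneg_left (not_lt.1 k) (dq_pos hh (gm j) x).le).trans d1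
    simp only [Pi.add_apply] at k
    rw [integral_add i1 ((iE j).div_const δ), integral_indicator_const _ m, integral_div,
      smul_eq_mul] at k
    have k1 := (div_le_iff₀' C0).2 (hs.vol j)
    have k2 : 1 / C = 1 / (2 * C) + 1 / (2 * C) := by
      field_simp
      norm_num
    rw [div_le_iff₀' T0, div_le_iff₀ C0]
    nlinarith [mul_le_mul_of_nonneg_right (hT {x | RB.R95.kap (1 / 3) (M.dq h (G j) x - 1) = 1})
      C0.le]

theorem neg (hn : 0 < n) (hH : M.Kae H) (hN : M.NefB H 0) (hh : M.Met h)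
    (hc : Cst M h (-(2 / (n + 1)))) : M.All fun e z => ∀ a b, tors (h e) z a b = 0 := by
  obtain ⟨G, C, hs⟩ := seq hn hH hN hh hc
  obtain ⟨-, hf, ho, -⟩ := mMU n M h hh
  obtain ⟨δ, δ0, hδ⟩ := dD_near hn hh
  have gm := fun j => (hs.kae j).toMet
  have t := ((hs.cut hn hH hh).add hs.en).add (hs.e00 hn hh hc)
  intro e he z hz a b
  refine G48.nq_zero (hh.pos e he z hz) (le_of_forall_pos_le_add fun θ θ0 => not_lt.1 fun k => ?_)
  have l := HS68.met_loc hh he hz
  obtain ⟨η, η0, hη⟩ : ∃ η : ℝ, 0 < η ∧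
      4 * η * (n + 1) ^ 2 * (nq (h e z) a * nq (h e z) b) < nq (h e z) (tors (h e) z a b) := by
    have c : ContinuousAt (fun η : ℝ => 4 * η * (n + 1) ^ 2 * (nq (h e z) a * nq (h e z) b)) 0 := by
      fun_prop
    obtain ⟨η, h1, h2⟩ := (((c.eventually (gt_mem_nhds (show _ < nq (h e z) (tors (h e) z a b) by
      simp only [mul_zero, zero_mul]
      linarith))).filter_mono nhdsWithin_le_nhds).and (self_mem_nhdsWithin (s := Ioi 0))).exists
    exact ⟨η, h2, h1⟩
  have c1 : ContinuousAt (fun w => tors (h e) w a b) z := by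
    have h1 : Continuous fun p : Fin n → Mat n => asy p a b := by
      unfold asy
      fun_prop
    exact h1.continuousAt.comp (continuousAt_pi.2 fun k => (l.smM_gam k).continuousAt)
  have c2 := fun v : E n => G48.cont_nq l.sm.continuousAt (continuousAt_const (y := v))
  obtain ⟨U, U1, U2, U3⟩ := eventually_nhds_iff.1 ((ContinuousAt.eventually_lt
    (((c2 a).mul (c2 b)).const_mul _) (G48.cont_nq l.sm.continuousAt c1) hη).and
      (e.open_target.mem_nhds hz))
  have m0 : 0 < (M.mu h).real (e.symm '' U) := ENNReal.toReal_pos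
    ((e.isOpen_image_symm_of_subset_target U2 fun w hw => (U1 w hw).2).measure_pos _
      ⟨_, z, U3, rfl⟩).ne' (measure_ne_top _ _)
  have p0 : 0 < min 1 (min (δ / 3) (η / 3)) := by positivity
  obtain ⟨j, hj⟩ := ((t.div_const (min 1 (min (δ / 3) (η / 3)))).eventually
    (gt_mem_nhds (by simpa using m0))).exists
  have i1 := ig hh ((sm_const 1).sub (((sm_dq hh (gm j).toTen).sub (sm_const 1)).comp
    fun y => RB.R95.kap_cd (1 / 3) (M.dq h (G j) y - 1))).continuous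
  have i2 := ig hh (ct_En hh (gm j))
  have i3 := ig hh ((sm_dq hh (gm j).toTen).continuous.mul (rep_e0 hh (gm j)).2)
  have n1 : ∀ x, 0 ≤ 1 - RB.R95.kap (1 / 3) (M.dq h (G j) x - 1) :=
    fun x => sub_nonneg.2 (Real.smoothTransition.le_one _)
  have n3 := fun x => mul_nonneg (dq_pos hh (gm j) x).le (e0_nonneg hh (gm j) x)
  rw [← integral_add i1 i2] at hj
  erw [← integral_add (i1.add i2) i3] at hj
  refine hj.not_ge (le_trans (measureReal_mono ?_) (G56.markov (fun x => add_nonneg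
    (add_nonneg (n1 x) (en_ge hn hh (gm j) x).2.2.2) (n3 x)) ((i1.add i2).add i3) p0))
  rintro _ ⟨w, hw, rfl⟩
  obtain ⟨w1, w2⟩ := U1 w hw
  rw [mem_ofPred_eq, ← not_lt]
  refine fun k => w1.not_ge ?_
  obtain ⟨d0, d1, -, d3⟩ := en_ge hn hh (gm j) (e.symm w)
  simp only [lt_min_iff] at k
  have k1 := RB.R95.kap_ne (A := 1 / 3) (t := M.dq h (G j) (e.symm w) - 1) (by norm_num)
    fun k0 => by
      have := k.1
      rw [k0] at this
      linarith [n3 (e.symm w)]
  have k2 := (hδ _ (gm j) (e.symm w) (by nlinarith [n1 (e.symm w), n3 (e.symm w), k.2.1])).2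
  have k3 : e0 M h (G j) (e.symm w) ≤ η := by
    nlinarith [n1 (e.symm w), e0_nonneg hh (gm j) (e.symm w), k.2.2]
  have k4 := hh.tr_nonneg (gm j).nonneg (e.symm w)
  rw [((mINV n M h hh).1 _ (gm j).toTen).1 e he w w2] at k2 k4
  rw [(rep_e0 hh (gm j)).1 e he w w2] at k3
  have lw := HS68.met_loc hh he w2
  refine (tors_le (HS68.met_loc (gm j) he w2) lw ((e.open_target.eventually_mem w2).mono
    fun y hy => ⟨(gm j).pos e he y hy, hh.pos e he y hy, (hs.kae j).cl e he y hy⟩) a b).trans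
    (mul_le_mul_of_nonneg_right (mul_le_mul (by linarith) (pow_le_pow_left₀ k4 k2.le 2)
      (sq_nonneg _) (by positivity))
      (mul_nonneg (G48.nq_pos lw.pos.posSemidef a) (G48.nq_pos lw.pos.posSemidef b)))

end Pool.Agent.Lib.CK9
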