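import Pool.Agent.Lib.CK9.Alg
import Pool.Agent.Lib.CK9.Form
import Pool.Agent.Lib.RB.B_RTB

/-! Project ck9: facts at one point. -/

open scoped Topology ComplexOrder Matrix ContDiff
open Set Filter

noncomputable section

namespace Pool.Agent.Lib.CK9

open Pool.Agent.Lib.SV (E)
open Pool.Agent.Lib.HS32 Pool.Agent.Lib.HS32.Mf Pool.Agent.Lib.HW68 Pool.Agent.Lib.GH

variable {n : ℕ}

theorem quart_sq {T : Mat n} (hT : T.IsHermitian) (κ : ℝ) (v : E n) :
    (∑ k, ∑ l, v k * star (v l) * (star v ⬝ᵥ (((κ : ℂ) * T l k) • T) *ᵥ v)).re =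
      κ * nq T v ^ 2 := by
  have e : star v ⬝ᵥ T *ᵥ v = (nq T v : ℝ) :=
    (Complex.conj_eq_iff_re.1 (Complex.conj_eq_iff_im.2
      (Matrix.IsHermitian.im_star_dotProduct_mulVec_self hT v))).symm
  have e3 : ∑ k, ∑ l, v k * star (v l) * T l k = star v ⬝ᵥ T *ᵥ v := by
    simp only [dotProduct, Matrix.mulVec, Finset.mul_sum, Pi.star_apply]
    rw [Finset.sum_comm]
    exact Finset.sum_congr rfl fun k _ => Finset.sum_congr rfl fun l _ => by ring
  have e2 : ∑ k, ∑ l, v k * star (v l) * (star v ⬝ᵥ (((κ : ℂ) * T l k) • T) *ᵥ v) =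
      κ * (∑ k, ∑ l, v k * star (v l) * T l k) * (star v ⬝ᵥ T *ᵥ v) := by
    simp only [Matrix.smul_mulVec, dotProduct_smul, smul_eq_mul, Finset.mul_sum, Finset.sum_mul]
    exact Finset.sum_congr rfl fun k _ => Finset.sum_congr rfl fun l _ => by ring
  rw [e2, e3, e, ← Complex.ofReal_mul, ← Complex.ofReal_mul, Complex.ofReal_re]
  ring

theorem n12_re {K T : Mat n} (hK : K.IsHermitian) (hT : T.IsHermitian) (κ : ℝ) :
    (n12 K fun k l => ((κ : ℂ) * T l k) • T).re =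
      κ * ((K * T).trace.re ^ 2 + (K * T * K * T).trace.re) := by
  have h0 : (((K * T).trace.re : ℝ) : ℂ) = (K * T).trace := BINV.re_trace (by
    rw [Matrix.conjTranspose_mul, hT.eq, hK.eq, Matrix.trace_mul_comm])
  rw [n12_sq, ← h0, Complex.re_ofReal_mul, Complex.add_re, ← Complex.ofReal_pow,
    Complex.ofReal_re, Complex.ofReal_re]

theorem n12_mono {K : Mat n} (hK : K.PosSemidef) {N N' : Fin n → Fin n → Mat n}
    (h : ∀ v : E n, (∑ k, ∑ l, v k * star (v l) * (star v ⬝ᵥ N k l *ᵥ v)).re ≤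
      (∑ k, ∑ l, v k * star (v l) * (star v ⬝ᵥ N' k l *ᵥ v)).re) :
    (n12 K N).re ≤ (n12 K N').re := by
  have h1 := roy (fun k l => N k l - N' k l) hK fun v => by
    simp only [Matrix.sub_mulVec, dotProduct_sub, mul_sub, Finset.sum_sub_distrib, Complex.sub_re]
    exact sub_nonpos.2 (h v)
  rwa [n12_sub, Complex.sub_re, sub_nonpos] at h1

variable {G h : E n → Mat n} {z : E n}

theorem sc_eq (hh : (h z).PosDef) {c : ℝ} (hc : ∀ v, (rm h z v v v v).re = c * nq (h z) v ^ 2) :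
    (sc h z).re = c * (n ^ 2 + n) := by
  have a := n12_re hh.inv.1 hh.1 c
  rw [Matrix.mul_assoc ((h z)⁻¹ * h z), Matrix.nonsing_inv_mul _ hh.det_pos.ne'.isUnit,
    Matrix.one_mul, Matrix.trace_one, Fintype.card_fin, Complex.natCast_re] at a
  rw [← a]
  exact le_antisymm
    (n12_mono hh.inv.posSemidef fun v => ((hc v).trans (quart_sq hh.1 c v).symm).le)
    (n12_mono hh.inv.posSemidef fun v => ((hc v).trans (quart_sq hh.1 c v).symm).ge)

theorem nf_ge (hn : 0 < n) (hG : (G z).PosDef) (hh : HS68.Loc h z)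
    (hc : ∀ v, (rm h z v v v v).re = -(2 / (n + 1)) * nq (h z) v ^ 2) :
    2 / n * ((G z)⁻¹ * h z).trace.re ^ 2 ≤ (n12 (G z)⁻¹ fun k l => nf G h k l z).re := by
  have a := n12_mono hG.inv.posSemidef (N' := fun k l => nf G h k l z)
    (N := fun k l => (((2 / (n + 1) : ℝ) : ℂ) * h z l k) • h z) fun v => by
      rw [quart_sq hh.pos.1, quart_nf]
      refine le_trans ?_ (dsc_ge hh v _)
      rw [hc, neg_mul, neg_neg]
  rw [n12_re hG.inv.1 hh.pos.1] at a
  refine le_trans ?_ a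
  have b := HS76.tr_sq_le hG hh.pos.1
  rw [Fintype.card_fin, ← Matrix.mul_assoc] at b
  have n0 : (0 : ℝ) < n := Nat.cast_pos.2 hn
  rw [div_mul_eq_mul_div, div_mul_eq_mul_div, div_le_div_iff₀ n0 (by positivity)]
  nlinarith

theorem ctr_diag (W : Mat n) (a b : Fin n → ℝ) (N : Fin n → Fin n → Mat n) :
    ∑ k, ∑ l, (W * Matrix.diagonal (fun i => (a i : ℂ)) * Wᴴ) k l *
      (W * Matrix.diagonal (fun i => (b i : ℂ)) * Wᴴ * N k l).trace =
    ∑ p, ∑ q, ((a p * b q : ℝ) : ℂ) *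
      ∑ k, ∑ l, W k p * star (W l p) * (star (fun i => W i q) ⬝ᵥ N k l *ᵥ fun i => W i q) := by
  have e1 : ∀ X : Mat n, (W * Matrix.diagonal (fun i => (b i : ℂ)) * Wᴴ * X).trace =
      ∑ q, b q * (star (fun i => W i q) ⬝ᵥ X *ᵥ fun i => W i q) := fun X => by
    rw [Matrix.mul_assoc, Matrix.mul_assoc, Matrix.trace_mul_comm, Matrix.mul_assoc,
      Matrix.mul_assoc]
    simp only [Matrix.trace, Matrix.diag_apply, Matrix.diagonal_mul]
    rfl
  have e2 : ∀ k l, (W * Matrix.diagonal (fun i => (a i : ℂ)) * Wᴴ) k l =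
      ∑ p, a p * (W k p * star (W l p)) := fun k l => by
    rw [Matrix.mul_apply]
    simp only [Matrix.mul_diagonal, Matrix.conjTranspose_apply]
    exact Finset.sum_congr rfl fun p _ => by ring
  have e3 : ∀ F : Fin n → Fin n → Fin n → Fin n → ℂ,
      ∑ k, ∑ l, ∑ p, ∑ q, F k l p q = ∑ p, ∑ q, ∑ k, ∑ l, F k l p q := fun F => by
    have e : ∀ F : Fin n → Fin n → Fin n → Fin n → ℂ, ∑ k, ∑ l, ∑ p, ∑ q, F k l p q =
        ∑ x : Fin n × Fin n, ∑ y : Fin n × Fin n, F x.1 x.2 y.1 y.2 :=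
      fun F => by simp only [Fintype.sum_prod_type]
    rw [e, e, Finset.sum_comm]
  simp only [e1, e2, Finset.sum_mul_sum]
  simp only [Finset.mul_sum, Complex.ofReal_mul]
  rw [e3]
  exact Finset.sum_congr rfl fun p _ => Finset.sum_congr rfl fun q _ =>
    Finset.sum_congr rfl fun k _ => Finset.sum_congr rfl fun l _ => by ring

theorem eig_at {A B : Mat n} (hA : A.PosDef) (hB : B.PosDef) :
    ∃ μ : Fin n → ℝ, (∀ i, 0 < μ i) ∧ (B.det / A.det).re = ∏ i, μ i ∧
      (A⁻¹ * B).trace.re = ∑ i, μ i ∧ (B⁻¹ * A).trace.re = ∑ i, (μ i)⁻¹ ∧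
      ∀ (N : Fin n → Fin n → Mat n) (C : ℝ), (∀ a v : E n, nq A a = 1 → nq A v = 1 →
        ‖∑ k, ∑ l, a k * star (a l) * (star v ⬝ᵥ N k l *ᵥ v)‖ ≤ C) →
        (∑ k, ∑ l, B⁻¹ k l * (B⁻¹ * N k l).trace).re -
          (∏ i, μ i) * (∑ k, ∑ l, A⁻¹ k l * (A⁻¹ * N k l).trace).re ≤
        C * ∑ a, ∑ b, |(μ a)⁻¹ * (μ b)⁻¹ - ∏ i, μ i| := by
  obtain ⟨W, μ, h1, h2⟩ := HS76.simul_diag hA hB.1
  have h3 : W * (Wᴴ * A) = 1 := mul_eq_one_comm.mp h1
  have hW : IsUnit W := IsUnit.of_mul_eq_one _ h3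
  have p : ∀ i, 0 < μ i := fun i => by
    have := (Matrix.IsUnit.posDef_star_left_conjugate_iff (x := B) hW).2 hB
    rw [Matrix.star_eq_conjTranspose, h2, Matrix.posDef_diagonal_iff] at this
    exact_mod_cast this i
  have i1 : A⁻¹ = W * Matrix.diagonal (fun _ => ((1 : ℝ) : ℂ)) * Wᴴ := by
    rw [Complex.ofReal_one, Matrix.diagonal_one, Matrix.mul_one]
    exact Matrix.inv_eq_left_inv (by rw [Matrix.mul_assoc, h3])
  have i2 : B⁻¹ = W * Matrix.diagonal (fun i => (((μ i)⁻¹ : ℝ) : ℂ)) * Wᴴ := by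
    refine Matrix.inv_eq_left_inv (hW.mul_right_cancel ?_)
    rw [Matrix.mul_assoc, Matrix.mul_assoc, ← Matrix.mul_assoc Wᴴ, h2, Matrix.mul_assoc,
      Matrix.diagonal_mul_diagonal, Matrix.one_mul]
    simp only [← Complex.ofReal_mul, inv_mul_cancel₀ (p _).ne', Complex.ofReal_one,
      Matrix.diagonal_one, Matrix.mul_one]
  have t : ∀ (d : Fin n → ℂ) (X : Mat n), (W * Matrix.diagonal d * Wᴴ * X).trace =
      (Matrix.diagonal d * (Wᴴ * X * W)).trace := fun d X => by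
    rw [Matrix.mul_assoc, Matrix.mul_assoc, Matrix.trace_mul_comm, Matrix.mul_assoc]
  have u : ∀ q, nq A (fun i => W i q) = 1 := fun q => by
    have := congrFun (congrFun h1 q) q
    rw [Matrix.mul_assoc, Matrix.one_apply_eq] at this
    exact congrArg Complex.re this
  refine ⟨μ, p, ?_, ?_, ?_, fun N C hC => ?_⟩
  · have d1 := congrArg Matrix.det h1
    have d2 := congrArg Matrix.det h2
    rw [Matrix.det_mul, Matrix.det_mul, Matrix.det_one] at d1
    rw [Matrix.det_mul, Matrix.det_mul, Matrix.det_diagonal, ← Complex.ofReal_prod] at d2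
    rw [← Complex.ofReal_re (∏ i, μ i), ← d2]
    congr 1
    rw [div_eq_iff hA.det_pos.ne']
    linear_combination (-B.det) * d1
  · rw [i1, t, h2, Matrix.diagonal_mul_diagonal, Matrix.trace_diagonal]
    simp
  · rw [i2, t, h1, Matrix.mul_one, Matrix.trace_diagonal, ← Complex.ofReal_sum, Complex.ofReal_re]
  · rw [i1, i2, ctr_diag, ctr_diag]
    simp only [Complex.re_sum, Complex.re_ofReal_mul, Finset.mul_sum, ← Finset.sum_sub_distrib]
    refine Finset.sum_le_sum fun a _ => Finset.sum_le_sum fun b _ => ?_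
    have k := (Complex.abs_re_le_norm _).trans (hC _ _ (u a) (u b))
    simp only [Complex.re_sum] at k
    simp only [mul_one, one_mul, ← Finset.mul_sum, ← sub_mul]
    refine (le_abs_self _).trans ?_
    rw [abs_mul, mul_comm]
    exact mul_le_mul_of_nonneg_right k (abs_nonneg _)

theorem tors_le (hG : HS68.Loc G z) (hh : HS68.Loc h z)
    (hw : ∀ᶠ w in 𝓝 z, (G w).PosDef ∧ (h w).PosDef ∧ ClM G w) (a b : E n) :
    nq (h z) (tors h z a b) ≤
      4 * (en G h h z).re * ((h z)⁻¹ * G z).trace.re ^ 2 * (nq (h z) a * nq (h z) b) := by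
  rw [(st_GSE n G h 1 z one_pos hG.sm hh.sm hw).2.2.2, asy, neg_sub]
  have e : en G h h z = HS76.ip3 (G z)⁻¹ (G z)⁻¹ (h z) (fun k => df G h k z) fun k => df G h k z :=
    (HS76.ip3_cyc _ _ _ _ _).symm
  have e0 := HS76.ip3_nonneg hG.pos.inv.posSemidef hG.pos.inv.posSemidef hh.pos.posSemidef
    fun k => df G h k z
  have c1 := G48.nq_le_tr hh.pos hG.pos.posSemidef a
  have c2 := G48.nq_le_tr hh.pos hG.pos.posSemidef b
  have c3 := mul_le_mul_of_nonneg_right (mul_le_mul c1 c2 (G48.nq_pos hG.pos.posSemidef b)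
    ((G48.nq_pos hG.pos.posSemidef a).trans c1)) e0
  have c4 := RB.R68.nq_form hG.pos hh.pos.posSemidef (fun k => df G h k z) a b
  have c5 := RB.R68.nq_form hG.pos hh.pos.posSemidef (fun k => df G h k z) b a
  refine (G48.nq_sub hh.pos.posSemidef _ _).trans ?_
  rw [e]
  nlinarith

theorem clM_of (hh : HS68.Loc h z) (ht : ∀ a b, tors h z a b = 0) : ClM h z := fun i j k => by
  have e : ∀ p, gam h k z p j = gam h j z p k := fun p => by
    have := congrFun (ht (Pi.single k 1) (Pi.single j 1)) p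
    simpa [tors, asy, Pi.single_apply, sub_eq_zero] using this
  simp only [hh.dM_eq, Matrix.mul_apply, e]

end Pool.Agent.Lib.CK9
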